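import Pool.Agent.TH894.PV4
import Pool.Agent.H262R2.UK.Pair
import Pool.Agent.H646.Moment

set_option autoImplicit false

/-! The off-diagonal part of the variance of the primes in the classes of one modulus: upper bound for EVERY modulus,
by an upper bound sieve for prime pairs, uniform in the shift. -/

namespace Pool.Agent.T2H64.EM
open Finset
open Pool.Agent.TH894.PV
open Pool.Agent.H646 (rat)
open ArithmeticFunction (vonMangoldt)

lemma rat_mul_le {m n : ℕ} (hm : 1 ≤ m) (hn : 1 ≤ n) : rat (m * n) ≤ rat m * rat n := by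
  unfold rat
  have h1 : 0 < m.totient := Nat.totient_pos.2 hm
  have h2 : 0 < n.totient := Nat.totient_pos.2 hn
  have h3 := Nat.totient_super_multiplicative m n
  rw [div_mul_div_comm]
  push_cast
  apply div_le_div_of_nonneg_left (by positivity) (by positivity)
  exact_mod_cast h3

/-- the von Mangoldt function on the primes -/
noncomputable def tw (n : ℕ) : ℝ := if n.Prime then Real.log n else 0

lemma tw_nonneg (n : ℕ) : 0 ≤ tw n := by
  unfold tw
  split_ifs
  · exact Real.log_natCast_nonneg n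
  · exact le_rfl

lemma tw_le (n : ℕ) : tw n ≤ vonMangoldt n := by
  unfold tw
  split_ifs with h
  · rw [ArithmeticFunction.vonMangoldt_apply_prime h]
  · exact ArithmeticFunction.vonMangoldt_nonneg

lemma sum_diff (N : ℕ) (hN : 1 ≤ N) : ∑ n ∈ Icc 1 N, (vonMangoldt n - tw n) ≤ 2 * √(N : ℝ) * Real.log N := by
  have h := Chebyshev.abs_psi_sub_theta_le_sqrt_mul_log (x := (N : ℝ)) (by exact_mod_cast hN)
  refine le_trans (le_of_eq ?_) ((le_abs_self _).trans h)
  rw [sum_sub_distrib]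
  unfold Chebyshev.psi Chebyshev.theta tw
  rw [Nat.floor_natCast, sum_filter]
  congr 1

lemma pair_pt (N n k : ℕ) (hn : 1 ≤ n) (hk : n + k ≤ N) :
    vonMangoldt n * vonMangoldt (n + k) ≤ Real.log N ^ 2 * (if n.Prime ∧ (n + k).Prime then (1 : ℝ) else 0) +
      Real.log N * (vonMangoldt n - tw n) + Real.log N * (vonMangoldt (n + k) - tw (n + k)) := by
  have hL : 0 ≤ Real.log (N : ℝ) := Real.log_natCast_nonneg N
  have h1 : vonMangoldt n ≤ Real.log N := ArithmeticFunction.vonMangoldt_le_log.trans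
    (Real.log_le_log (by exact_mod_cast hn) (by exact_mod_cast (by omega : n ≤ N)))
  have h2 : vonMangoldt (n + k) ≤ Real.log N := ArithmeticFunction.vonMangoldt_le_log.trans
    (Real.log_le_log (by exact_mod_cast (by omega : 0 < n + k)) (by exact_mod_cast hk))
  have h3 : 0 ≤ vonMangoldt n := ArithmeticFunction.vonMangoldt_nonneg
  have h4 : 0 ≤ vonMangoldt (n + k) := ArithmeticFunction.vonMangoldt_nonneg
  have h5 := tw_nonneg n
  have h6 := tw_nonneg (n + k)
  have h7 := tw_le n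
  have h8 := tw_le (n + k)
  have h9 : tw n * tw (n + k) ≤ Real.log N ^ 2 * (if n.Prime ∧ (n + k).Prime then (1 : ℝ) else 0) := by
    split_ifs with h
    · rw [mul_one, pow_two]
      exact mul_le_mul (h7.trans h1) (h8.trans h2) h6 hL
    · rw [mul_zero]
      unfold tw
      by_cases hp : n.Prime
      · rw [if_neg (fun hq => h ⟨hp, hq⟩), mul_zero]
      · rw [if_neg hp, zero_mul]
  have e : vonMangoldt n * vonMangoldt (n + k) = tw n * tw (n + k) + (vonMangoldt n - tw n) * vonMangoldt (n + k) +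
      tw n * (vonMangoldt (n + k) - tw (n + k)) := by ring
  rw [e]
  have h10 : (vonMangoldt n - tw n) * vonMangoldt (n + k) ≤ (vonMangoldt n - tw n) * Real.log N :=
    mul_le_mul_of_nonneg_left h2 (by linarith)
  have h11 : tw n * (vonMangoldt (n + k) - tw (n + k)) ≤ Real.log N * (vonMangoldt (n + k) - tw (n + k)) :=
    mul_le_mul_of_nonneg_right (h7.trans h1) (by linarith)
  nlinarith

/-- one shift -/
lemma one_shift : ∃ C : ℝ, 0 < C ∧ ∃ N₀ : ℕ, ∀ N : ℕ, N₀ ≤ N → ∀ Q k : ℕ, 1 ≤ k → k ≤ N →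
    ∑ n ∈ Icc 1 (N - k), vq Q n * vq Q (n + k) ≤ C * N * rat k + 4 * √(N : ℝ) * Real.log N ^ 2 := by
  obtain ⟨C, hC, N₀, h⟩ := Pool.Agent.H262R2.UK.pair_bound
  refine ⟨C, hC, max N₀ 3, fun N hN Q k hk hkN => ?_⟩
  have hN3 : 3 ≤ N := (le_max_right _ _).trans hN
  have hN1 : 1 ≤ N := by omega
  have hL : 0 < Real.log (N : ℝ) := Real.log_pos (by exact_mod_cast (by omega : 1 < N))
  have h0 := h N ((le_max_left _ _).trans hN) 0 k hk
  rw [Nat.sub_zero] at h0
  have h1 : ∀ n ∈ Icc 1 (N - k), vq Q n * vq Q (n + k) ≤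
      Real.log N ^ 2 * (if n.Prime ∧ (n + k).Prime then (1 : ℝ) else 0) +
      Real.log N * (vonMangoldt n - tw n) + Real.log N * (vonMangoldt (n + k) - tw (n + k)) := by
    intro n hn
    rw [mem_Icc] at hn
    refine le_trans ?_ (pair_pt N n k hn.1 (by omega))
    exact mul_le_mul (vq_le Q n) (vq_le Q _) (vq_nonneg Q _) ArithmeticFunction.vonMangoldt_nonneg
  refine (sum_le_sum h1).trans ?_
  rw [sum_add_distrib, sum_add_distrib, ← mul_sum, ← mul_sum, ← mul_sum]
  have hd : ∀ n, 0 ≤ vonMangoldt n - tw n := fun n => sub_nonneg.2 (tw_le n)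
  have a1 : ∑ n ∈ Icc 1 (N - k), (if n.Prime ∧ (n + k).Prime then (1 : ℝ) else 0) ≤ C * N / Real.log N ^ 2 * rat k := by
    refine le_trans ?_ h0
    rw [← sum_filter, sum_const, nsmul_eq_mul, mul_one]
    have : ((Icc 1 (N - k)).filter (fun n => n.Prime ∧ (n + k).Prime)).card ≤
        ((Icc 1 N).filter (fun n => (n + 0).Prime ∧ (n + k).Prime)).card := by
      apply card_le_card
      intro n hn
      rw [mem_filter, mem_Icc] at hn ⊢
      exact ⟨⟨hn.1.1, by omega⟩, hn.2⟩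
    exact_mod_cast this
  have a2 : ∑ n ∈ Icc 1 (N - k), (vonMangoldt n - tw n) ≤ 2 * √(N : ℝ) * Real.log N :=
    (sum_le_sum_of_subset_of_nonneg (Icc_subset_Icc_right (Nat.sub_le _ _)) (fun n _ _ => hd n)).trans (sum_diff N hN1)
  have a3 : ∑ n ∈ Icc 1 (N - k), (vonMangoldt (n + k) - tw (n + k)) ≤ 2 * √(N : ℝ) * Real.log N := by
    refine le_trans ?_ (sum_diff N hN1)
    have : ∑ n ∈ Icc 1 (N - k), (vonMangoldt (n + k) - tw (n + k)) = ∑ n ∈ (Icc 1 (N - k)).image (· + k), (vonMangoldt n - tw n) := by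
      rw [sum_image]
      intro a _ b _ hab
      exact Nat.add_right_cancel hab
    rw [this]
    apply sum_le_sum_of_subset_of_nonneg
    · intro n hn
      rw [mem_image] at hn
      obtain ⟨m, hm, rfl⟩ := hn
      rw [mem_Icc] at hm ⊢
      omega
    · exact fun n _ _ => hd n
  have b1 : Real.log N ^ 2 * ∑ n ∈ Icc 1 (N - k), (if n.Prime ∧ (n + k).Prime then (1 : ℝ) else 0) ≤ C * N * rat k := by
    refine (mul_le_mul_of_nonneg_left a1 (by positivity)).trans (le_of_eq ?_)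
    field_simp
  have b2 := mul_le_mul_of_nonneg_left a2 hL.le
  have b3 := mul_le_mul_of_nonneg_left a3 hL.le
  linarith

/-- the off-diagonal part, for every modulus -/
theorem off_upper : ∃ C : ℝ, 0 < C ∧ ∃ N₀ : ℕ, ∀ N : ℕ, N₀ ≤ N → ∀ Q : ℕ, 1 ≤ Q → Q ≤ N →
    ∑ h ∈ Icc 1 (N / Q), ∑ n ∈ Icc 1 (N - h * Q), vq Q n * vq Q (n + h * Q) ≤ C * ((N : ℝ) ^ 2 / (Nat.totient Q : ℝ)) := by
  obtain ⟨C, hC, N₀, h⟩ := one_shift
  obtain ⟨C', hC', hm⟩ := Pool.Agent.H646.MomentM.rat_moment 1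
  obtain ⟨N₁, h1⟩ := Pool.Agent.H373R2.T7.ev_log' 2 4
  refine ⟨C * C' + 1, by positivity, max (max N₀ N₁) 3, fun N hN Q hQ hQN => ?_⟩
  have hN3 : 3 ≤ N := (le_max_right _ _).trans hN
  have hNr : (0 : ℝ) < N := by exact_mod_cast (by omega : 0 < N)
  have hQr : (0 : ℝ) < Q := by exact_mod_cast hQ
  have hφ : (0 : ℝ) < (Nat.totient Q : ℝ) := by exact_mod_cast Nat.totient_pos.2 hQ
  have hφQ : (Nat.totient Q : ℝ) ≤ Q := by exact_mod_cast Nat.totient_le Q
  have hs := h1 N ((le_max_right _ _).trans ((le_max_left _ _).trans hN))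
  have hH : ((N / Q : ℕ) : ℝ) ≤ N / Q := Nat.cast_div_le
  have step : ∀ t ∈ Icc 1 (N / Q), ∑ n ∈ Icc 1 (N - t * Q), vq Q n * vq Q (n + t * Q) ≤
      C * N * (rat Q * rat t) + N := by
    intro t ht
    rw [mem_Icc] at ht
    have ht2 : t * Q ≤ N := (Nat.mul_le_mul_right Q ht.2).trans (Nat.div_mul_le_self N Q)
    have ht1 : 1 ≤ t * Q := Nat.mul_pos ht.1 hQ
    refine (h N ((le_max_left _ _).trans ((le_max_left _ _).trans hN)) Q (t * Q) ht1 ht2).trans ?_
    have e1 : rat (t * Q) ≤ rat Q * rat t := by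
      rw [mul_comm (rat Q)]
      exact rat_mul_le ht.1 hQ
    have e2 : 4 * √(N : ℝ) * Real.log N ^ 2 ≤ N := by
      have := mul_le_mul_of_nonneg_left hs (Real.sqrt_nonneg (N : ℝ))
      rw [Real.mul_self_sqrt hNr.le] at this
      linarith
    have e3 := mul_le_mul_of_nonneg_left e1 (mul_nonneg hC.le hNr.le)
    linarith
  refine (sum_le_sum step).trans ?_
  rw [sum_add_distrib, ← mul_sum, ← mul_sum, sum_const, Nat.card_Icc, Nat.add_sub_cancel, nsmul_eq_mul]
  have hm1 := hm (N / Q)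
  simp only [pow_one] at hm1
  have hrat : rat Q = Q / (Nat.totient Q : ℝ) := rfl
  have hrat0 : 0 ≤ rat Q := by rw [hrat]; positivity
  have c1 : rat Q * ∑ t ∈ Icc 1 (N / Q), rat t ≤ rat Q * (C' * (N / Q)) :=
    mul_le_mul_of_nonneg_left (hm1.trans (mul_le_mul_of_nonneg_left hH hC'.le)) hrat0
  have c2 : C * N * (rat Q * ∑ t ∈ Icc 1 (N / Q), rat t) ≤ C * N * (rat Q * (C' * (N / Q))) :=
    mul_le_mul_of_nonneg_left c1 (by positivity)
  have c3 : C * N * (rat Q * (C' * (N / Q))) = C * C' * ((N : ℝ) ^ 2 / (Nat.totient Q : ℝ)) := by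
    rw [hrat]
    field_simp
  have c4 : ((N / Q : ℕ) : ℝ) * N ≤ (N : ℝ) ^ 2 / (Nat.totient Q : ℝ) := by
    have : ((N / Q : ℕ) : ℝ) ≤ N / (Nat.totient Q : ℝ) := hH.trans (div_le_div_of_nonneg_left hNr.le hφ hφQ)
    calc ((N / Q : ℕ) : ℝ) * N ≤ N / (Nat.totient Q : ℝ) * N := mul_le_mul_of_nonneg_right this hNr.le
      _ = _ := by ring
  linarith

end Pool.Agent.T2H64.EM
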