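import Pool.Agent.T2H64.EM
import Pool.Agent.H336R2.V.Main

set_option autoImplicit false

/-! Two-sided bounds for the variance of the primes in the reduced classes of EVERY modulus. -/

namespace Pool.Agent.T2H64.EM
open Finset
open Pool.Agent.TH894.PV (vq vq_nonneg vq_le sq_expand classes diag first)
open ArithmeticFunction (vonMangoldt)

/-- `ψ(X; Q, a)` -/
noncomputable def psiAP (X : ℝ) (Q a : ℕ) : ℝ :=
  ∑ n ∈ (Icc 1 ⌊X⌋₊).filter (fun n => n % Q = a), ArithmeticFunction.vonMangoldt n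

/-- the variance -/
noncomputable def G (X : ℝ) (Q : ℕ) : ℝ :=
  ∑ a ∈ (range Q).filter (fun a => Nat.Coprime a Q), (psiAP X Q a - X / (Nat.totient Q : ℝ)) ^ 2

lemma G_expand (x : ℝ) (Q : ℕ) (hQ : 1 ≤ Q) :
    G x Q = (∑ n ∈ Icc 1 ⌊x⌋₊, vq Q n ^ 2 + 2 * ∑ h ∈ Icc 1 (⌊x⌋₊ / Q), ∑ n ∈ Icc 1 (⌊x⌋₊ - h * Q), vq Q n * vq Q (n + h * Q)) -
      2 * (x / (Nat.totient Q : ℝ)) * (∑ n ∈ Icc 1 ⌊x⌋₊, vq Q n) + x ^ 2 / (Nat.totient Q : ℝ) := by
  have hφ : (0 : ℝ) < (Nat.totient Q : ℝ) := by exact_mod_cast Nat.totient_pos.2 hQ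
  have hcard : (((range Q).filter (fun a => Nat.Coprime a Q)).card : ℝ) = (Nat.totient Q : ℝ) := by
    rw [Nat.totient_eq_card_coprime]
    congr 2
    ext a
    rw [mem_filter, mem_filter, Nat.coprime_comm]
  have h1 := classes ⌊x⌋₊ Q hQ (fun t => t ^ 2) (by norm_num)
  have h2 := classes ⌊x⌋₊ Q hQ (fun t => t) rfl
  rw [sq_expand _ Q hQ] at h1
  rw [sum_fiberwise_of_maps_to (s := Icc 1 ⌊x⌋₊) (t := range Q) (g := fun n => n % Q) (fun n _ => mem_range.2 (Nat.mod_lt _ hQ))] at h2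
  unfold G psiAP
  have h3 : ∀ a ∈ (range Q).filter (fun a => Nat.Coprime a Q),
      (∑ n ∈ (Icc 1 ⌊x⌋₊).filter (fun n => n % Q = a), ArithmeticFunction.vonMangoldt n - x / (Nat.totient Q : ℝ)) ^ 2 =
      (∑ n ∈ (Icc 1 ⌊x⌋₊).filter (fun n => n % Q = a), ArithmeticFunction.vonMangoldt n) ^ 2 -
      2 * (x / (Nat.totient Q : ℝ)) * (∑ n ∈ (Icc 1 ⌊x⌋₊).filter (fun n => n % Q = a), ArithmeticFunction.vonMangoldt n) + (x / (Nat.totient Q : ℝ)) ^ 2 := by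
    intro a _
    ring
  rw [sum_congr rfl h3, sum_add_distrib, sum_sub_distrib, ← mul_sum, h1, h2, sum_const, nsmul_eq_mul, hcard]
  congr 1
  field_simp

lemma GV_eq (x : ℝ) (Q : ℕ) : H336V.GV x Q = G x Q := by
  unfold H336V.GV G
  apply sum_congr rfl
  intro a ha
  rw [mem_filter, mem_range] at ha
  congr 2
  unfold H336V.psiA psiAP
  apply sum_congr _ (fun _ _ => rfl)
  ext n
  rw [mem_filter, mem_filter]
  constructor
  · rintro ⟨h1, h2⟩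
    refine ⟨h1, ?_⟩
    rw [h2, Nat.mod_eq_of_lt ha.1]
  · rintro ⟨h1, h2⟩
    refine ⟨h1, ?_⟩
    show n % Q = a % Q
    rw [h2, Nat.mod_eq_of_lt ha.1]

/-- `x log x` against `N log N`, `N = ⌊x⌋` -/
lemma floor_log (x : ℝ) (hx : 1 ≤ x) : (⌊x⌋₊ : ℝ) * Real.log ⌊x⌋₊ ≤ x * Real.log x ∧
    x * Real.log x - 2 * Real.log x - 2 ≤ (⌊x⌋₊ : ℝ) * Real.log ⌊x⌋₊ := by
  have h0 : (⌊x⌋₊ : ℝ) ≤ x := Nat.floor_le (by linarith)
  have h1 : 1 ≤ ⌊x⌋₊ := Nat.le_floor (by simpa using hx)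
  have h1r : (1 : ℝ) ≤ ⌊x⌋₊ := by exact_mod_cast h1
  have h2 : x < ⌊x⌋₊ + 1 := Nat.lt_floor_add_one x
  have h3 : Real.log ⌊x⌋₊ ≤ Real.log x := Real.log_le_log (by linarith) h0
  have h4 : 0 ≤ Real.log (⌊x⌋₊ : ℝ) := Real.log_nonneg h1r
  have h5 : 0 ≤ Real.log x := Real.log_nonneg hx
  constructor
  · exact mul_le_mul h0 h3 h4 (by linarith)
  · have h6 : Real.log x - Real.log ⌊x⌋₊ ≤ 1 / ⌊x⌋₊ := by
      rw [← Real.log_div (by linarith) (by linarith)]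
      have h7 := Real.log_le_sub_one_of_pos (show 0 < x / ⌊x⌋₊ by positivity)
      refine h7.trans ?_
      rw [div_sub_one (by linarith)]
      exact div_le_div_of_nonneg_right (by linarith) (by linarith)
    have h8 : (⌊x⌋₊ : ℝ) * (Real.log x - Real.log ⌊x⌋₊) ≤ 1 := by
      calc _ ≤ (⌊x⌋₊ : ℝ) * (1 / ⌊x⌋₊) := mul_le_mul_of_nonneg_left h6 (by linarith)
        _ = 1 := by field_simp
    nlinarith

theorem two_sided : ∃ C : ℝ, 0 < C ∧ ∀ ε : ℝ, 0 < ε → ∃ X₀ : ℝ, ∀ X : ℝ, X₀ ≤ X → ∀ Q : ℕ, 1 ≤ Q → (Q : ℝ) ≤ X →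
    (1 - ε) * (X * Real.log X) - (1 + ε) * (X ^ 2 / (Nat.totient Q : ℝ)) ≤ G X Q ∧
    G X Q ≤ (1 + ε) * (X * Real.log X) + C * (X ^ 2 / (Nat.totient Q : ℝ)) := by
  obtain ⟨C, hC, N₀, hoff⟩ := off_upper
  obtain ⟨C₁, hC₁, N₁, hfirst⟩ := first 1
  refine ⟨2 * C + 1, by linarith, fun ε hε => ?_⟩
  obtain ⟨N₂, hdiag⟩ := diag (ε / 2) (by positivity)
  obtain ⟨N₃, hlog⟩ := Pool.Agent.H373R2.T7.ev_L' (2 * C₁ / ε)
  refine ⟨max (max (N₀ + N₁ + N₂ + N₃ + 1 : ℕ) (Real.exp 1)) (16 / ε), fun x hx Q hQ hQx => ?_⟩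
  have hxe : Real.exp 1 ≤ x := (le_max_right _ _).trans ((le_max_left _ _).trans hx)
  have hxε : 16 / ε ≤ x := (le_max_right _ _).trans hx
  have hxN : ((N₀ + N₁ + N₂ + N₃ + 1 : ℕ) : ℝ) ≤ x := (le_max_left _ _).trans ((le_max_left _ _).trans hx)
  have hx1 : 1 ≤ x := by
    have := Real.add_one_le_exp (1 : ℝ)
    linarith
  have hx0 : 0 < x := by linarith
  have hN : N₀ + N₁ + N₂ + N₃ + 1 ≤ ⌊x⌋₊ := Nat.le_floor hxN
  have hQN : Q ≤ ⌊x⌋₊ := Nat.le_floor hQx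
  have hφ : (0 : ℝ) < (Nat.totient Q : ℝ) := by exact_mod_cast Nat.totient_pos.2 hQ
  have a1 := hoff ⌊x⌋₊ (by omega) Q hQ hQN
  have a2 := hfirst ⌊x⌋₊ (by omega) Q hQ hQN
  have a3 := hdiag ⌊x⌋₊ (by omega) Q hQ hQN
  have a4 := hlog ⌊x⌋₊ (by omega)
  rw [pow_one] at a2
  have hNx : (⌊x⌋₊ : ℝ) ≤ x := Nat.floor_le hx0.le
  have hN0 : (0 : ℝ) < ⌊x⌋₊ := by exact_mod_cast (by omega : 0 < ⌊x⌋₊)
  obtain ⟨f1, f2⟩ := floor_log x hx1
  have hlx : 1 ≤ Real.log x := by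
    rw [Real.le_log_iff_exp_le hx0]
    exact hxe
  rw [G_expand x Q hQ]
  obtain ⟨D, hD⟩ : ∃ D, D = ∑ n ∈ Icc 1 ⌊x⌋₊, vq Q n ^ 2 := ⟨_, rfl⟩
  obtain ⟨T, hT⟩ : ∃ T, T = ∑ h ∈ Icc 1 (⌊x⌋₊ / Q), ∑ n ∈ Icc 1 (⌊x⌋₊ - h * Q), vq Q n * vq Q (n + h * Q) := ⟨_, rfl⟩
  obtain ⟨S, hS⟩ : ∃ S, S = ∑ n ∈ Icc 1 ⌊x⌋₊, vq Q n := ⟨_, rfl⟩
  have hT0 : 0 ≤ T := by
    rw [hT]
    exact sum_nonneg fun h _ => sum_nonneg fun n _ => mul_nonneg (vq_nonneg _ _) (vq_nonneg _ _)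
  have hS0 : 0 ≤ S := by
    rw [hS]
    exact sum_nonneg fun n _ => vq_nonneg _ _
  rw [← hD, ← hT, ← hS]
  rw [← hD] at a3
  rw [← hT] at a1
  rw [← hS] at a2
  obtain ⟨y, hy⟩ : ∃ y, y = x / (Nat.totient Q : ℝ) := ⟨_, rfl⟩
  have hy0 : 0 < y := by rw [hy]; positivity
  have e1 : x ^ 2 / (Nat.totient Q : ℝ) = x * y := by rw [hy]; ring
  rw [e1, ← hy]
  have hNy : (⌊x⌋₊ : ℝ) ^ 2 / (Nat.totient Q : ℝ) ≤ x * y := by
    rw [← e1]
    exact div_le_div_of_nonneg_right (pow_le_pow_left₀ hN0.le hNx 2) hφ.le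
  have hlogN : 0 < Real.log (⌊x⌋₊ : ℝ) := lt_of_lt_of_le (by positivity) a4
  -- the sum of the vq
  have hSx : S ≤ (1 + ε / 2) * x := by
    have b1 := (abs_le.1 a2).2
    have b2 : C₁ * (⌊x⌋₊ / Real.log ⌊x⌋₊) ≤ ε / 2 * ⌊x⌋₊ := by
      rw [← mul_div_assoc, div_le_iff₀ hlogN]
      rw [div_le_iff₀ hε] at a4
      nlinarith
    nlinarith
  have hD1 := (abs_le.1 a3).1
  have hD2 := (abs_le.1 a3).2
  have h16 : 4 ≤ ε / 4 * x := by
    rw [div_le_iff₀ hε] at hxε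
    linarith
  have hlx4 : 2 * Real.log x + 2 ≤ ε / 4 * (x * Real.log x) := by
    have : 2 * Real.log x + 2 ≤ 4 * Real.log x := by linarith
    nlinarith
  have hxl : 0 ≤ x * Real.log x := by positivity
  constructor
  · have g1 : 2 * y * S ≤ 2 * y * ((1 + ε / 2) * x) := mul_le_mul_of_nonneg_left hSx (by positivity)
    have g2 : (1 - ε) * (x * Real.log x) ≤ D := by
      have g3 : (1 - ε / 2) * ((⌊x⌋₊ : ℝ) * Real.log ⌊x⌋₊) ≤ D := by linarith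
      rcases le_or_gt ε 2 with h2 | h2
      · have g4 : (1 - ε / 2) * (x * Real.log x - 2 * Real.log x - 2) ≤ (1 - ε / 2) * ((⌊x⌋₊ : ℝ) * Real.log ⌊x⌋₊) :=
          mul_le_mul_of_nonneg_left (by linarith) (by linarith)
        nlinarith
      · have g5 : 0 ≤ D := by
          rw [hD]
          exact sum_nonneg fun n _ => sq_nonneg _
        nlinarith
    nlinarith
  · have g1 : 0 ≤ 2 * y * S := by positivity
    have g2 : D ≤ (1 + ε) * (x * Real.log x) := by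
      have g3 : D ≤ (1 + ε / 2) * ((⌊x⌋₊ : ℝ) * Real.log ⌊x⌋₊) := by linarith
      have g4 : (1 + ε / 2) * ((⌊x⌋₊ : ℝ) * Real.log ⌊x⌋₊) ≤ (1 + ε / 2) * (x * Real.log x) :=
        mul_le_mul_of_nonneg_left f1 (by linarith)
      nlinarith
    have g3 : T ≤ C * (x * y) := a1.trans (mul_le_mul_of_nonneg_left hNy hC.le)
    linarith

theorem main : ∃ C : ℝ, 0 < C ∧ ∀ ε : ℝ, 0 < ε → ε ≤ 1 → ∃ X₀ : ℝ, ∀ X : ℝ, X₀ ≤ X → ∀ Q : ℕ, 1 ≤ Q → (Q : ℝ) ≤ X →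
    (1 - ε) * (X * Real.log X) - (1 + ε) * (X ^ 2 / (Nat.totient Q : ℝ)) ≤ G X Q ∧
    X * (3 / 2 * Real.log Q - (1 + ε) * Real.log X) ≤ G X Q ∧
    G X Q ≤ (1 + ε) * (X * Real.log X) + C * (X ^ 2 / (Nat.totient Q : ℝ)) ∧
    (C * X ≤ ε * ((Nat.totient Q : ℝ) * Real.log X) → |G X Q - X * Real.log Q| ≤ ε * (X * Real.log Q)) := by
  obtain ⟨C, hC, h⟩ := two_sided
  refine ⟨8 * C + 16, by linarith, fun ε hε hε1 => ?_⟩
  obtain ⟨X₁, h1⟩ := h (ε / 8) (by positivity)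
  obtain ⟨X₂, h2⟩ := H336V.main ε hε
  have hll : ∀ᶠ x : ℝ in Filter.atTop, Real.log (Real.log x) ≤ ε / 8 * Real.log x := by
    have := (Real.isLittleO_log_id_atTop.comp_tendsto Real.tendsto_log_atTop).bound (show 0 < ε / 8 by positivity)
    filter_upwards [this, Filter.eventually_ge_atTop (Real.exp 1)] with x hx hxe
    have hx0 : 0 < x := lt_of_lt_of_le (Real.exp_pos 1) hxe
    have hl : 1 ≤ Real.log x := by
      rw [Real.le_log_iff_exp_le hx0]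
      exact hxe
    simp only [Function.comp, id, Real.norm_eq_abs] at hx
    rw [abs_of_nonneg (Real.log_nonneg hl), abs_of_nonneg (by linarith)] at hx
    exact hx
  obtain ⟨X₃, h3⟩ := Filter.eventually_atTop.1 hll
  refine ⟨max (max X₁ X₂) (max X₃ (Real.exp 1)), fun X hX Q hQ hQX => ?_⟩
  have hX1 : X₁ ≤ X := (le_max_left _ _).trans ((le_max_left _ _).trans hX)
  have hX2 : X₂ ≤ X := (le_max_right _ _).trans ((le_max_left _ _).trans hX)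
  have hX3 : X₃ ≤ X := (le_max_left _ _).trans ((le_max_right _ _).trans hX)
  have hXe : Real.exp 1 ≤ X := (le_max_right _ _).trans ((le_max_right _ _).trans hX)
  have hX0 : 0 < X := lt_of_lt_of_le (Real.exp_pos 1) hXe
  have hl : 1 ≤ Real.log X := by
    rw [Real.le_log_iff_exp_le hX0]
    exact hXe
  have hφ : (0 : ℝ) < (Nat.totient Q : ℝ) := by exact_mod_cast Nat.totient_pos.2 hQ
  have hQ0 : (0 : ℝ) < Q := by exact_mod_cast hQ
  have hP : 0 ≤ X ^ 2 / (Nat.totient Q : ℝ) := by positivity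
  have hXl : 0 ≤ X * Real.log X := by positivity
  obtain ⟨b1, b2⟩ := h1 X hX1 Q hQ hQX
  have b3 := h2 X hX2 Q hQ hQX
  rw [GV_eq] at b3
  refine ⟨?_, ?_, ?_, ?_⟩
  · nlinarith
  · linarith
  · nlinarith
  · intro hc
    have c1 : (8 * C + 16) * (X ^ 2 / (Nat.totient Q : ℝ)) ≤ ε * (X * Real.log X) := by
      rw [← mul_div_assoc, div_le_iff₀ hφ]
      nlinarith
    have c2 : C * (X ^ 2 / (Nat.totient Q : ℝ)) ≤ ε / 8 * (X * Real.log X) := by nlinarith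
    have c3 : 2 * (X ^ 2 / (Nat.totient Q : ℝ)) ≤ ε / 8 * (X * Real.log X) := by nlinarith
    have hlQX : Real.log Q ≤ Real.log X := Real.log_le_log hQ0 hQX
    have hlQ : (1 - ε / 8) * Real.log X ≤ Real.log Q := by
      have d1 : X / Real.log X ≤ Q := by
        rw [div_le_iff₀ (by linarith)]
        have d2 : (Nat.totient Q : ℝ) ≤ Q := by exact_mod_cast Nat.totient_le Q
        have d3 : 0 ≤ (Nat.totient Q : ℝ) * Real.log X := by positivity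
        have d4 : X ≤ (8 * C + 16) * X := by nlinarith
        have d5 : ε * ((Nat.totient Q : ℝ) * Real.log X) ≤ 1 * ((Nat.totient Q : ℝ) * Real.log X) :=
          mul_le_mul_of_nonneg_right hε1 d3
        have d6 : (Nat.totient Q : ℝ) * Real.log X ≤ Q * Real.log X := mul_le_mul_of_nonneg_right d2 (by linarith)
        linarith
      have d7 := Real.log_le_log (by positivity) d1
      rw [Real.log_div (by linarith) (by linarith)] at d7
      have d8 := h3 X hX3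
      linarith
    have hlQ' : (1 - ε / 8) * (X * Real.log X) ≤ X * Real.log Q := by nlinarith
    have hlQX' : X * Real.log Q ≤ X * Real.log X := mul_le_mul_of_nonneg_left hlQX hX0.le
    rw [abs_le]
    constructor
    · -- lower bound
      have e1 : (1 - ε / 4) * (X * Real.log X) ≤ G X Q := by nlinarith
      have e2 : (1 - ε) * (X * Real.log Q) ≤ (1 - ε) * (X * Real.log X) := mul_le_mul_of_nonneg_left hlQX' (by linarith)
      nlinarith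
    · have e1 : G X Q ≤ (1 + ε / 4) * (X * Real.log X) := by nlinarith
      have e2 : (1 + ε) * ((1 - ε / 8) * (X * Real.log X)) ≤ (1 + ε) * (X * Real.log Q) :=
        mul_le_mul_of_nonneg_left hlQ' (by linarith)
      have e3 : (1 + ε / 4) * (X * Real.log X) ≤ (1 + ε) * ((1 - ε / 8) * (X * Real.log X)) := by
        have : 1 + ε / 4 ≤ (1 + ε) * (1 - ε / 8) := by nlinarith
        nlinarith
      linarith

end Pool.Agent.T2H64.EM
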