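import Pool.Agent.Y886.UTC
import Pool.Agent.H295R3.Hoheisel

/-!
Iterated primes in short intervals, uniformly in the number of the iterations.
-/

set_option autoImplicit false

open Finset Filter Topology

namespace Pool.Agent.T2H64.SI

open Pool.Agent.H197R2.PG (PI pi_le_self)
open Pool.Agent.Y886.UT (cheb)

lemma pi_sub (X Y : ℕ) : ((Ioc X (X + Y)).filter Nat.Prime).card = Nat.primeCounting (X + Y) - Nat.primeCounting X := by
  have h1 : ∀ n : ℕ, Nat.primeCounting n = ((Icc 1 n).filter Nat.Prime).card := by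
    intro n
    rw [Nat.primeCounting, Nat.primeCounting', Nat.count_eq_card_filter_range]
    congr 1
    ext p
    rw [mem_filter, mem_filter, mem_range, mem_Icc]
    constructor
    · rintro ⟨h1, h2⟩
      exact ⟨⟨h2.one_lt.le, by omega⟩, h2⟩
    · rintro ⟨h1, h2⟩
      exact ⟨by omega, h2⟩
  rw [h1, h1]
  have h2 : (Icc 1 (X + Y)).filter Nat.Prime = (Icc 1 X).filter Nat.Prime ∪ (Ioc X (X + Y)).filter Nat.Prime := by
    ext p
    rw [mem_union, mem_filter, mem_filter, mem_filter, mem_Icc, mem_Icc, mem_Ioc]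
    constructor
    · rintro ⟨h3, h4⟩
      rcases Nat.lt_or_ge X p with h5 | h5
      · exact Or.inr ⟨⟨h5, h3.2⟩, h4⟩
      · exact Or.inl ⟨⟨h3.1, h5⟩, h4⟩
    · rintro (⟨h3, h4⟩ | ⟨h3, h4⟩)
      · exact ⟨⟨h3.1, by omega⟩, h4⟩
      · exact ⟨⟨by omega, h3.2⟩, h4⟩
  rw [h2, card_union_of_disjoint]
  · omega
  · rw [disjoint_left]
    intro p hp hp2
    rw [mem_filter, mem_Icc] at hp
    rw [mem_filter, mem_Ioc] at hp2
    omega

/-- **Iterated primes in short intervals** -/
theorem densS : ∃ δ η : ℝ, 0 < δ ∧ δ < 1 ∧ 0 < η ∧ η ≤ 1 ∧ ∃ X₀ : ℕ, 2 ≤ X₀ ∧ ∀ (a X Y : ℕ) (Λ : ℝ),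
    1 ≤ Λ → Real.log X ≤ Λ → Y ≤ X → (X₀ : ℝ) * (Λ / η) ^ a ≤ Y → (X : ℝ) ^ (1 - δ) * (Λ / η) ^ a ≤ Y →
    ∃ S : Finset ℕ, S ⊆ Ioc X (X + Y) ∧ (∀ p ∈ S, PI a p) ∧ (η / Λ) ^ (a + 1) * Y ≤ S.card := by
  classical
  obtain ⟨δ, η₀, hδ, hδ1, hη₀, X₀, hX₀, hH⟩ := Pool.Agent.H295R3.D.hoheisel
  obtain ⟨c, hc, hc4, hch⟩ := cheb
  refine ⟨δ, min η₀ c, hδ, hδ1, lt_min hη₀ hc, (min_le_right _ _).trans (by linarith), X₀, hX₀, ?_⟩
  set η := min η₀ c with hη
  have hη0 : 0 < η := lt_min hη₀ hc
  have hη1 : η ≤ 1 := (min_le_right _ _).trans (by linarith)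
  intro a
  induction a with
  | zero =>
    intro X Y Λ hΛ hXΛ hYX h1 h2
    rw [pow_zero, mul_one] at h1 h2
    have hXX : X₀ ≤ X := by
      have : (X₀ : ℝ) ≤ X := h1.trans (by exact_mod_cast hYX)
      exact_mod_cast this
    have hX1 : (1 : ℝ) < X := by exact_mod_cast (by omega : 1 < X)
    have hlX : 0 < Real.log X := Real.log_pos hX1
    refine ⟨(Ioc X (X + Y)).filter Nat.Prime, filter_subset _ _, ?_, ?_⟩
    · intro p hp j hj
      have : j = 0 := by omega
      subst this
      exact (mem_filter.mp hp).2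
    · refine le_trans ?_ (hH X Y hXX h2 hYX)
      rw [zero_add, pow_one]
      have hY0 : (0 : ℝ) ≤ Y := Nat.cast_nonneg _
      calc η / Λ * Y ≤ η₀ / Real.log X * Y := by
            apply mul_le_mul_of_nonneg_right _ hY0
            exact div_le_div₀ hη₀.le (min_le_left _ _) hlX hXΛ
        _ = _ := by ring
  | succ a ih =>
    intro X Y Λ hΛ hXΛ hYX h1 h2
    have hΛη : 1 ≤ Λ / η := by
      rw [le_div_iff₀ hη0]
      linarith
    have hp1 : 1 ≤ (Λ / η) ^ (a + 1) := one_le_pow₀ hΛη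
    have hpa : 0 < (Λ / η) ^ a := by positivity
    have hX0r : (0 : ℝ) ≤ X₀ := Nat.cast_nonneg _
    have hXX : X₀ ≤ X := by
      have h3 : (X₀ : ℝ) ≤ Y := by nlinarith
      have : (X₀ : ℝ) ≤ X := h3.trans (by exact_mod_cast hYX)
      exact_mod_cast this
    have hX1 : (1 : ℝ) < X := by exact_mod_cast (by omega : 1 < X)
    have hlX : 0 < Real.log X := Real.log_pos hX1
    have hY0 : (0 : ℝ) ≤ Y := Nat.cast_nonneg _
    have h2' : (X : ℝ) ^ (1 - δ) ≤ Y := by
      have : 0 ≤ (X : ℝ) ^ (1 - δ) := by positivity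
      nlinarith
    have hcount := hH X Y hXX h2' hYX
    rw [pi_sub] at hcount
    set X1 := Nat.primeCounting X with hX1def
    set Y1 := Nat.primeCounting (X + Y) - Nat.primeCounting X with hY1def
    set Y2 := min Y1 X1 with hY2
    have hηY : η / Λ * Y ≤ Y1 := by
      refine le_trans ?_ hcount
      calc η / Λ * Y ≤ η₀ / Real.log X * Y := by
            apply mul_le_mul_of_nonneg_right _ hY0
            exact div_le_div₀ hη₀.le (min_le_left _ _) hlX hXΛ
        _ = _ := by ring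
    have hηX : η / Λ * Y ≤ X1 := by
      have h3 := hch X (by omega)
      have h4 : c * X / Λ ≤ X1 := by
        rw [div_le_iff₀ (by linarith)]
        refine h3.trans ?_
        exact mul_le_mul_of_nonneg_left hXΛ (Nat.cast_nonneg _)
      refine le_trans ?_ h4
      have h5 : η * Y ≤ c * X := mul_le_mul (min_le_right _ _) (by exact_mod_cast hYX) hY0 hc.le
      calc η / Λ * Y = η * Y / Λ := by ring
        _ ≤ _ := div_le_div_of_nonneg_right h5 (by linarith)
    have hηY2 : η / Λ * Y ≤ Y2 := by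
      rw [hY2]
      push_cast
      exact le_min hηY hηX
    have hX1X : X1 ≤ X := pi_le_self X
    have hX1pos : 1 ≤ X1 := by
      have h4 : Nat.primeCounting 2 = 1 := by decide
      rw [← h4]
      exact Nat.monotone_primeCounting (by omega)
    have hfac : ∀ Z : ℝ, Z * (Λ / η) ^ (a + 1) ≤ Y → Z * (Λ / η) ^ a ≤ η / Λ * Y := by
      intro Z hZ
      have h3 : Z * (Λ / η) ^ a = η / Λ * (Z * (Λ / η) ^ (a + 1)) := by
        rw [pow_succ]
        have : Λ ≠ 0 := by linarith
        field_simp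
      rw [h3]
      exact mul_le_mul_of_nonneg_left hZ (by positivity)
    obtain ⟨S, hS1, hS2, hS3⟩ := ih X1 Y2 Λ hΛ
      ((Real.log_le_log (by exact_mod_cast hX1pos) (by exact_mod_cast hX1X)).trans hXΛ) (min_le_right _ _)
      ((hfac _ h1).trans hηY2)
      (by
        refine le_trans ?_ ((hfac _ h2).trans hηY2)
        apply mul_le_mul_of_nonneg_right _ hpa.le
        exact Real.rpow_le_rpow (Nat.cast_nonneg _) (by exact_mod_cast hX1X) (by linarith))
    have hpi : ∀ m : ℕ, 1 ≤ m → Nat.primeCounting (Nat.nth Nat.Prime (m - 1)) = m := by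
      intro m hm
      rw [Nat.primeCounting, Nat.primeCounting', Nat.count_succ, ← Nat.primeCounting',
        Nat.primeCounting'_nth_eq, if_pos (Nat.prime_nth_prime _)]
      omega
    have hrange : ∀ m ∈ S, 1 ≤ m ∧ X1 < m ∧ m ≤ Nat.primeCounting (X + Y) := by
      intro m hm
      have h3 := mem_Ioc.1 (hS1 hm)
      have h4 : Y2 ≤ Y1 := min_le_left _ _
      have h5 : Nat.primeCounting X ≤ Nat.primeCounting (X + Y) := Nat.monotone_primeCounting (by omega)
      refine ⟨by omega, h3.1, by omega⟩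
    have hinj : Set.InjOn (fun m : ℕ => Nat.nth Nat.Prime (m - 1)) (S : Set ℕ) := by
      intro u hu w hw huw
      have hu1 := (hrange u hu).1
      have hw1 := (hrange w hw).1
      simp only at huw
      rw [← hpi u hu1, ← hpi w hw1, huw]
    refine ⟨S.image (fun m : ℕ => Nat.nth Nat.Prime (m - 1)), ?_, ?_, ?_⟩
    · intro p hp
      obtain ⟨m, hm, rfl⟩ := mem_image.mp hp
      obtain ⟨h3, h4, h5⟩ := hrange m hm
      rw [mem_Ioc]
      constructor
      · by_contra hcon
        push Not at hcon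
        have h6 := Nat.monotone_primeCounting hcon
        rw [hpi m h3] at h6
        omega
      · have h5' : m - 1 < Nat.count Nat.Prime (X + Y + 1) := by
          have : Nat.primeCounting (X + Y) = Nat.count Nat.Prime (X + Y + 1) := rfl
          omega
        have h6 := Nat.nth_lt_of_lt_count h5'
        omega
    · intro p hp j hj
      obtain ⟨m, hm, rfl⟩ := mem_image.mp hp
      have hm1 := (hrange m hm).1
      rcases j with _ | j
      · exact Nat.prime_nth_prime _
      · rw [Function.iterate_succ_apply, hpi m hm1]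
        exact hS2 m hm j (by omega)
    · rw [Finset.card_image_of_injOn hinj]
      refine le_trans ?_ hS3
      calc (η / Λ) ^ (a + 1 + 1) * Y = (η / Λ) ^ (a + 1) * (η / Λ * Y) := by ring
        _ ≤ _ := mul_le_mul_of_nonneg_left hηY2 (by positivity)

end Pool.Agent.T2H64.SI
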