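import Pool.Agent.T2H64.SI1
import Pool.Agent.Y886.UTB

/-!
The second moment in short intervals.
-/

set_option autoImplicit false

open Finset Filter Topology

namespace Pool.Agent.T2H64.SI

open Pool.Agent.H197R2.PG (gg one_le_gg pair_avg pair_sieve_sharp)

/-- the primes in `(2 x, 2 x + y]` -/
def QS (x y : ℕ) : Finset ℕ := (Ioc (2 * x) (2 * x + y)).filter Nat.Prime

/-- the integers `n` in `(x, x + y]` with `2 n = a + q`, `a` in `S` and `q > 2 x` prime -/
noncomputable def RS (S : Finset ℕ) (x y : ℕ) : Finset ℕ := by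
  classical
  exact (Ioc x (x + y)).filter (fun n => ∃ a ∈ S, ∃ q : ℕ, q.Prime ∧ 2 * x < q ∧ a + q = 2 * n)

lemma cnt_le (x y a b : ℕ) (hab : b < a) :
    ∑ q ∈ QS x y, #((QS x y).filter (fun q' => b + q' = a + q)) ≤
      #((Ioc (2 * x) (2 * x + y)).filter (fun n => n.Prime ∧ (n + (a - b)).Prime)) := by
  classical
  have h1 : ∀ q ∈ QS x y, #((QS x y).filter (fun q' => b + q' = a + q)) ≤
      if (q + (a - b)).Prime then 1 else 0 := by
    intro q _
    split_ifs with h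
    · apply Finset.card_le_one.mpr
      intro u hu v hv
      have h2 := (mem_filter.mp hu).2
      have h3 := (mem_filter.mp hv).2
      omega
    · rw [Nat.le_zero, Finset.card_eq_zero, Finset.filter_eq_empty_iff]
      intro q' hq' h4
      apply h
      have h5 : q + (a - b) = q' := by omega
      rw [h5]
      exact (mem_filter.mp hq').2
  refine (Finset.sum_le_sum h1).trans ?_
  rw [← Finset.card_filter]
  apply Finset.card_le_card
  intro q hq
  rw [mem_filter] at hq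
  have h6 := hq.1
  unfold QS at h6
  rw [mem_filter] at h6
  rw [mem_filter]
  exact ⟨h6.1, h6.2, hq.2⟩

lemma cnt_swap (x y a b : ℕ) :
    ∑ q ∈ QS x y, #((QS x y).filter (fun q' => b + q' = a + q)) =
      ∑ q ∈ QS x y, #((QS x y).filter (fun q' => a + q' = b + q)) := by
  classical
  simp only [Finset.card_filter]
  rw [Finset.sum_comm]
  apply Finset.sum_congr rfl
  intro q _
  apply Finset.sum_congr rfl
  intro q' _
  simp only [eq_comm]

lemma cnt_self (x y a : ℕ) :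
    ∑ q ∈ QS x y, #((QS x y).filter (fun q' => a + q' = a + q)) ≤ #(QS x y) := by
  classical
  rw [Finset.card_eq_sum_ones]
  apply Finset.sum_le_sum
  intro q _
  apply Finset.card_le_one.mpr
  intro u hu v hv
  have h2 := (mem_filter.mp hu).2
  have h3 := (mem_filter.mp hv).2
  omega

theorem second_moment : ∃ C : ℝ, 1 ≤ C ∧ ∃ u0 : ℕ, ∀ (x y Y : ℕ) (S : Finset ℕ), u0 ≤ y → y ≤ x →
    2 * (Y : ℝ) ≤ (y : ℝ) ^ (1 / 16 : ℝ) → S ⊆ Icc 1 Y → (∀ a ∈ S, 3 ≤ a ∧ a % 2 = 1) →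
    ((#S : ℝ) * #(QS x y)) ^ 2 ≤ #(RS S x y) * ((#S : ℝ) * #(QS x y) +
      C * (∑ z ∈ S.offDiag, gg (2 * Nat.dist z.1 z.2)) * y / Real.log y ^ 2) := by
  classical
  obtain ⟨C, hC, u0, hps⟩ := pair_sieve_sharp
  refine ⟨C, hC, max u0 1, ?_⟩
  intro x y Y S hy hyx hY hS hodd
  have hy1 : 1 ≤ y := (le_max_right _ _).trans hy
  have hyu : u0 ≤ y := (le_max_left _ _).trans hy
  have hy1' : (1 : ℝ) ≤ y := by exact_mod_cast hy1
  have hYy : Y ≤ y := by
    have h1 : (y : ℝ) ^ (1 / 16 : ℝ) ≤ (y : ℝ) ^ (1 : ℝ) :=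
      Real.rpow_le_rpow_of_exponent_le hy1' (by norm_num)
    rw [Real.rpow_one] at h1
    have h2 : (0 : ℝ) ≤ Y := Nat.cast_nonneg _
    have h3 : (Y : ℝ) ≤ y := by linarith
    exact_mod_cast h3
  set Q := QS x y with hQ
  set Pairs := S ×ˢ Q with hPairs
  set f : ℕ × ℕ → ℕ := fun z => z.1 + z.2 with hf
  set I := Pairs.image f with hI
  set r : ℕ → ℕ := fun m => #(Pairs.filter (fun z => f z = m)) with hr
  have hcardP : #Pairs = ∑ m ∈ I, r m := Finset.card_eq_sum_card_image f Pairs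
  have hcardP' : (#Pairs : ℝ) = (#S : ℝ) * #Q := by
    rw [hPairs, Finset.card_product]
    push_cast
    rfl
  have hCS : (#Pairs : ℝ) ^ 2 ≤ #I * ∑ m ∈ I, (r m : ℝ) ^ 2 := by
    rw [hcardP]
    push_cast
    exact sq_sum_le_card_mul_sum_sq
  -- the second moment
  have hmom : ∑ m ∈ I, (r m : ℝ) ^ 2 ≤ (#S : ℝ) * #Q +
      C * (∑ z ∈ S.offDiag, gg (2 * Nat.dist z.1 z.2)) * y / Real.log y ^ 2 := by
    have e1 : ∑ m ∈ I, (r m) ^ 2 = ∑ z ∈ Pairs, r (f z) := by
      rw [Finset.sum_comp r f]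
      apply Finset.sum_congr rfl
      intro m _
      rw [smul_eq_mul, sq]
    have e2 : ∑ z ∈ Pairs, r (f z) = ∑ a ∈ S, ∑ b ∈ S,
        ∑ q ∈ Q, #(Q.filter (fun q' => b + q' = a + q)) := by
      rw [hPairs, Finset.sum_product]
      apply Finset.sum_congr rfl
      intro a _
      rw [Finset.sum_comm]
      apply Finset.sum_congr rfl
      intro q _
      simp only [hr, hf, Finset.card_filter, hPairs]
      rw [Finset.sum_product]
    have e3 : ∑ a ∈ S, ∑ b ∈ S, ∑ q ∈ Q, #(Q.filter (fun q' => b + q' = a + q)) =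
        ∑ z ∈ S ×ˢ S, ∑ q ∈ Q, #(Q.filter (fun q' => z.2 + q' = z.1 + q)) := by
      rw [Finset.sum_product]
    have e4 : ∑ z ∈ S ×ˢ S, ∑ q ∈ Q, #(Q.filter (fun q' => z.2 + q' = z.1 + q)) =
        ∑ z ∈ S.diag, ∑ q ∈ Q, #(Q.filter (fun q' => z.2 + q' = z.1 + q)) +
        ∑ z ∈ S.offDiag, ∑ q ∈ Q, #(Q.filter (fun q' => z.2 + q' = z.1 + q)) := by
      rw [← Finset.diag_union_offDiag, Finset.sum_union (Finset.disjoint_diag_offDiag S)]
    have e5 : ∑ z ∈ S.diag, ∑ q ∈ Q, #(Q.filter (fun q' => z.2 + q' = z.1 + q)) ≤ #S * #Q := by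
      rw [← Finset.diag_card S, ← smul_eq_mul, ← Finset.sum_const]
      apply Finset.sum_le_sum
      intro z hz
      rw [Finset.mem_diag] at hz
      rw [← hz.2]
      exact cnt_self x y z.1
    have e6 : ∀ z ∈ S.offDiag, ((∑ q ∈ Q, #(Q.filter (fun q' => z.2 + q' = z.1 + q)) : ℕ) : ℝ) ≤
        C * gg (2 * Nat.dist z.1 z.2) * y / Real.log y ^ 2 := by
      intro z hz
      rw [mem_offDiag] at hz
      have hz1 := mem_Icc.mp (hS hz.1)
      have hz2 := mem_Icc.mp (hS hz.2.1)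
      have hd0 : 0 < Nat.dist z.1 z.2 := Nat.dist_pos_of_ne hz.2.2
      have hdY : Nat.dist z.1 z.2 ≤ Y := by
        unfold Nat.dist
        omega
      have hdY' : 2 * (Nat.dist z.1 z.2 : ℝ) ≤ (y : ℝ) ^ (1 / 16 : ℝ) := by
        have : (Nat.dist z.1 z.2 : ℝ) ≤ Y := by exact_mod_cast hdY
        linarith
      have hbound := hps (Nat.dist z.1 z.2) (2 * x) y hd0 hyu hdY'
      have hcnt : ∑ q ∈ Q, #(Q.filter (fun q' => z.2 + q' = z.1 + q)) ≤
          #((Ioc (2 * x) (2 * x + y)).filter (fun n => n.Prime ∧ (n + Nat.dist z.1 z.2).Prime)) := by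
        rcases lt_or_gt_of_ne hz.2.2 with h | h
        · have e : Nat.dist z.1 z.2 = z.2 - z.1 := Nat.dist_eq_sub_of_le h.le
          rw [e, hQ, cnt_swap]
          exact cnt_le x y z.2 z.1 h
        · have e : Nat.dist z.1 z.2 = z.1 - z.2 := Nat.dist_eq_sub_of_le_right h.le
          rw [e]
          exact cnt_le x y z.1 z.2 h
      calc ((∑ q ∈ Q, #(Q.filter (fun q' => z.2 + q' = z.1 + q)) : ℕ) : ℝ)
          ≤ (#((Ioc (2 * x) (2 * x + y)).filter (fun n => n.Prime ∧ (n + Nat.dist z.1 z.2).Prime)) : ℝ) := by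
            exact_mod_cast hcnt
        _ ≤ _ := hbound
    have e7 : ∑ m ∈ I, (r m : ℝ) ^ 2 = ((∑ m ∈ I, (r m) ^ 2 : ℕ) : ℝ) := by push_cast; rfl
    rw [e7, e1, e2, e3, e4]
    push_cast
    have e8 : (∑ z ∈ S.diag, ∑ q ∈ Q, (#(Q.filter (fun q' => z.2 + q' = z.1 + q)) : ℝ)) ≤
        (#S : ℝ) * #Q := by exact_mod_cast e5
    have e9 : (∑ z ∈ S.offDiag, ∑ q ∈ Q, (#(Q.filter (fun q' => z.2 + q' = z.1 + q)) : ℝ)) ≤
        C * (∑ z ∈ S.offDiag, gg (2 * Nat.dist z.1 z.2)) * y / Real.log y ^ 2 := by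
      have e10 : C * (∑ z ∈ S.offDiag, gg (2 * Nat.dist z.1 z.2)) * y / Real.log y ^ 2 =
          ∑ z ∈ S.offDiag, C * gg (2 * Nat.dist z.1 z.2) * y / Real.log y ^ 2 := by
        rw [Finset.mul_sum, Finset.sum_mul, Finset.sum_div]
      rw [e10]
      apply Finset.sum_le_sum
      intro z hz
      have := e6 z hz
      push_cast at this
      exact this
    linarith
  -- the support
  have hsupp : #I ≤ #(RS S x y) := by
    have h1 : I ⊆ (RS S x y).image (fun n => 2 * n) := by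
      intro m hm
      obtain ⟨z, hz, rfl⟩ := mem_image.mp hm
      rw [hPairs, mem_product] at hz
      obtain ⟨hz1, hz2⟩ := hz
      rw [hQ] at hz2
      unfold QS at hz2
      rw [mem_filter, mem_Ioc] at hz2
      obtain ⟨⟨h2, h3⟩, h4⟩ := hz2
      have h5 := hodd z.1 hz1
      have h6 := mem_Icc.mp (hS hz1)
      have h7 : z.2 % 2 = 1 := by
        rcases h4.eq_two_or_odd with h | h
        · omega
        · exact h
      rw [mem_image]
      refine ⟨(z.1 + z.2) / 2, ?_, ?_⟩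
      · unfold RS
        rw [mem_filter, mem_Ioc]
        refine ⟨⟨by omega, by omega⟩, z.1, hz1, z.2, h4, h2, ?_⟩
        omega
      · simp only [hf]
        omega
    exact (Finset.card_le_card h1).trans Finset.card_image_le
  have hmom0 : 0 ≤ ∑ m ∈ I, (r m : ℝ) ^ 2 := Finset.sum_nonneg (fun _ _ => by positivity)
  rw [← hcardP']
  refine hCS.trans ?_
  have hsupp' : (#I : ℝ) ≤ #(RS S x y) := by exact_mod_cast hsupp
  rw [hcardP']
  apply mul_le_mul hsupp' hmom hmom0 (Nat.cast_nonneg _)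

/-- **Sums with the primes of a short interval, uniformly** -/
theorem GUS : ∃ δ : ℝ, 0 < δ ∧ δ ≤ 1 / 2 ∧ ∃ C : ℝ, 1 ≤ C ∧ ∃ x0 : ℕ, ∀ (x y Y k : ℕ) (S : Finset ℕ), x0 ≤ x →
    (x : ℝ) ^ (1 - δ) ≤ y → y ≤ x →
    2 * (Y : ℝ) ≤ (y : ℝ) ^ (1 / 16 : ℝ) → S ⊆ Icc 1 Y → (∀ a ∈ S, 3 ≤ a ∧ a % 2 = 1) →
    Real.log x ≤ S.card → 3 ≤ k → 2 * (Y : ℝ) ≤ Real.exp 1 ^ k * S.card →
    (y : ℝ) ≤ C * Real.log k * (RS S x y).card := by
  classical
  obtain ⟨δ, η, hδ, hδ1, hη, X₀, hX₀, hH⟩ := Pool.Agent.H295R3.D.hoheisel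
  obtain ⟨C1, hC1, hpa⟩ := pair_avg
  obtain ⟨C2, hC2, u0, hsm⟩ := second_moment
  set E : ℝ := Real.exp 1 with hE
  have hE0 : 0 < E := Real.exp_pos _
  set D' : ℝ := C2 * (C1 * E) with hD'
  have hD'0 : 0 < D' := by positivity
  -- the large numbers
  have hev : ∀ᶠ x : ℕ in atTop, 2 ≤ (x : ℝ) ^ (δ / 2) ∧ (u0 : ℝ) ≤ (x : ℝ) ^ (1 / 2 : ℝ) := by
    have t1 : Tendsto (fun x : ℕ => (x : ℝ) ^ (δ / 2)) atTop atTop :=
      (tendsto_rpow_atTop (by positivity)).comp tendsto_natCast_atTop_atTop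
    have t2 : Tendsto (fun x : ℕ => (x : ℝ) ^ (1 / 2 : ℝ)) atTop atTop :=
      (tendsto_rpow_atTop (by norm_num)).comp tendsto_natCast_atTop_atTop
    filter_upwards [t1.eventually_ge_atTop 2, t2.eventually_ge_atTop (u0 : ℝ)] with x h1 h2
    exact ⟨h1, h2⟩
  obtain ⟨x1, hx1⟩ := eventually_atTop.1 hev
  refine ⟨min (δ / 2) (1 / 2), lt_min (by positivity) (by norm_num), min_le_right _ _,
    (2 / η + 16 * D' / η ^ 2) + 1, by
      have : 0 ≤ 2 / η + 16 * D' / η ^ 2 := by positivity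
      linarith, max (max x1 X₀) 10, ?_⟩
  intro x y Y k S hx hxy hyx hY116 hSY hodd hKL hk3 hEk
  obtain ⟨hx2δ, hxu0⟩ := hx1 x ((le_max_left _ _).trans ((le_max_left _ _).trans hx))
  have hxX0 : X₀ ≤ x := (le_max_right _ _).trans ((le_max_left _ _).trans hx)
  have hx10 : 10 ≤ x := (le_max_right _ _).trans hx
  set L := Real.log (x : ℝ) with hL
  have hxpos : (0 : ℝ) < x := by exact_mod_cast (by omega : 0 < x)
  have hx1r : (1 : ℝ) ≤ x := by exact_mod_cast (by omega : 1 ≤ x)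
  have hL0 : 0 < L := Real.log_pos (by exact_mod_cast (by omega : 1 < x))
  have hyhalf : (x : ℝ) ^ (1 / 2 : ℝ) ≤ y := by
    refine le_trans ?_ hxy
    apply Real.rpow_le_rpow_of_exponent_le hx1r
    have := min_le_right (δ / 2) (1 / 2 : ℝ)
    linarith
  have hypos : (0 : ℝ) < y := lt_of_lt_of_le (Real.rpow_pos_of_pos hxpos _) hyhalf
  have hlogy : L / 2 ≤ Real.log y := by
    have h1 := Real.log_le_log (Real.rpow_pos_of_pos hxpos _) hyhalf
    rw [Real.log_rpow hxpos] at h1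
    linarith
  have hyu : u0 ≤ y := by exact_mod_cast hxu0.trans hyhalf
  -- Hoheisel
  have hQ : η * y / (2 * L) ≤ (QS x y).card := by
    have h1 : ((2 * x : ℕ) : ℝ) ^ (1 - δ) ≤ y := by
      push_cast
      rw [Real.mul_rpow (by norm_num) hxpos.le]
      have h2 : (2 : ℝ) ^ (1 - δ) ≤ 2 := by
        calc (2 : ℝ) ^ (1 - δ) ≤ 2 ^ (1 : ℝ) := Real.rpow_le_rpow_of_exponent_le (by norm_num) (by linarith)
          _ = 2 := Real.rpow_one _
      calc (2 : ℝ) ^ (1 - δ) * (x : ℝ) ^ (1 - δ) ≤ (x : ℝ) ^ (δ / 2) * (x : ℝ) ^ (1 - δ) :=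
            mul_le_mul_of_nonneg_right (h2.trans hx2δ) (by positivity)
        _ = (x : ℝ) ^ (1 - δ / 2) := by
            rw [← Real.rpow_add hxpos]
            congr 1
            ring
        _ ≤ (x : ℝ) ^ (1 - min (δ / 2) (1 / 2)) := by
            apply Real.rpow_le_rpow_of_exponent_le hx1r
            have := min_le_left (δ / 2) (1 / 2 : ℝ)
            linarith
        _ ≤ y := hxy
    have h2 := hH (2 * x) y (by omega) h1 (by omega)
    refine le_trans ?_ h2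
    apply div_le_div_of_nonneg_left (by positivity)
    · exact Real.log_pos (by push_cast; linarith)
    · push_cast
      rw [Real.log_mul (by norm_num) hxpos.ne', ← hL]
      have h3 : Real.log 2 ≤ L := Real.log_le_log (by norm_num) (by
        have : (10 : ℝ) ≤ x := by exact_mod_cast hx10
        linarith)
      linarith
  have hK0 : (0 : ℝ) < S.card := by linarith
  have hmain := hsm x y Y S hyu hyx hY116 hSY hodd
  have havg := hpa k Y S E hk3 hSY hE0.le hEk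
  have hlogk1 : 1 ≤ Real.log k := by
    have h1 : (3 : ℝ) ≤ k := by exact_mod_cast hk3
    rw [Real.le_log_iff_exp_le (by linarith)]
    have := Real.exp_one_lt_d9
    linarith
  set K : ℝ := (S.card : ℝ) with hKdef
  set t : ℝ := K * (QS x y).card with ht
  set l4 : ℝ := Real.log k with hl4
  have ht1 : K * (η * y) / (2 * L) ≤ t := by
    rw [ht]
    calc K * (η * y) / (2 * L) = K * (η * y / (2 * L)) := by ring
      _ ≤ _ := mul_le_mul_of_nonneg_left hQ hK0.le
  have htpos : 0 < t := lt_of_lt_of_le (by positivity) ht1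
  have ht2 : η * y / 2 ≤ t := by
    refine le_trans ?_ ht1
    rw [div_le_div_iff₀ (by norm_num) (by positivity)]
    have : 0 ≤ η * y := by positivity
    nlinarith
  have hZ : C2 * (∑ z ∈ S.offDiag, gg (2 * Nat.dist z.1 z.2)) * y / Real.log y ^ 2 ≤
      16 * D' / η ^ 2 * l4 * t ^ 2 / y := by
    have h1 : C2 * (∑ z ∈ S.offDiag, gg (2 * Nat.dist z.1 z.2)) * y / Real.log y ^ 2 ≤
        C2 * (C1 * E * l4 * K ^ 2) * y / (L / 2) ^ 2 := by
      gcongr
    refine h1.trans ?_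
    have h2 : (K * (η * y) / (2 * L)) ^ 2 ≤ t ^ 2 := by gcongr
    have h3 : C2 * (C1 * E * l4 * K ^ 2) * y / (L / 2) ^ 2 =
        16 * D' / η ^ 2 * l4 * (K * (η * y) / (2 * L)) ^ 2 / y := by
      rw [hD']
      field_simp
      norm_num
    rw [h3]
    gcongr
  have ht3 : t ≤ 2 / η * t ^ 2 / y := by
    rw [le_div_iff₀ hypos, div_mul_eq_mul_div, le_div_iff₀ hη]
    nlinarith
  have h1 : t ^ 2 ≤ (RS S x y).card * (((2 / η + 16 * D' / η ^ 2) * l4) * t ^ 2 / y) := by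
    refine hmain.trans ?_
    apply mul_le_mul_of_nonneg_left _ (Nat.cast_nonneg _)
    have h2 : 2 / η * t ^ 2 / y ≤ 2 / η * l4 * t ^ 2 / y := by
      apply div_le_div_of_nonneg_right _ hypos.le
      apply mul_le_mul_of_nonneg_right _ (by positivity)
      exact le_mul_of_one_le_right (by positivity) hlogk1
    calc t + C2 * (∑ z ∈ S.offDiag, gg (2 * Nat.dist z.1 z.2)) * y / Real.log y ^ 2
        ≤ 2 / η * l4 * t ^ 2 / y + 16 * D' / η ^ 2 * l4 * t ^ 2 / y := by linarith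
      _ = ((2 / η + 16 * D' / η ^ 2) * l4) * t ^ 2 / y := by ring
  have h3 : t ^ 2 * y ≤ t ^ 2 * ((2 / η + 16 * D' / η ^ 2) * l4 * (RS S x y).card) := by
    calc t ^ 2 * y ≤ ((RS S x y).card * (((2 / η + 16 * D' / η ^ 2) * l4) * t ^ 2 / y)) * y := by gcongr
      _ = t ^ 2 * ((2 / η + 16 * D' / η ^ 2) * l4 * (RS S x y).card) := by field_simp
  have h4 : (y : ℝ) ≤ (2 / η + 16 * D' / η ^ 2) * l4 * (RS S x y).card := le_of_mul_le_mul_left h3 (by positivity)
  refine h4.trans ?_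
  apply mul_le_mul_of_nonneg_right _ (Nat.cast_nonneg _)
  apply mul_le_mul_of_nonneg_right _ (by linarith)
  linarith

end Pool.Agent.T2H64.SI
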