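import Pool.Agent.T2H64.SI2

/-!
Sums of a prime and an iterated prime in short intervals, uniformly in the number of the iterations.
-/

set_option autoImplicit false

open Finset Filter Topology

namespace Pool.Agent.T2H64.SI

open Pool.Agent.H197R2.PG (PI)
open Pool.Agent.TH665.GP (PI_prime)
open Pool.Agent.Y886.UT (par kbound dens log_two_ge)

/-- **Sums of a prime and an `a`-fold iterated prime, uniformly in `a`** -/
theorem main1 : ∃ δ c K : ℝ, 0 < δ ∧ δ ≤ 1 / 2 ∧ 0 < c ∧ 0 < K ∧ ∀ᶠ x : ℕ in atTop, ∀ y : ℕ, (x : ℝ) ^ (1 - δ) ≤ y → y ≤ x →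
    ∀ a : ℕ, K * (((a : ℝ) + 2) * Real.log ((a : ℝ) + 2)) ≤ Real.log x → ∃ T : Finset ℕ, T ⊆ Ioc x (x + y) ∧
      (∀ n ∈ T, ∃ p q : ℕ, p < q ∧ PI a p ∧ q.Prime ∧ p + q = 2 * n) ∧
      c * (y / (Real.log ((a : ℝ) + 2) + Real.log (Real.log (Real.log (Real.log x))))) ≤ T.card := by
  classical
  obtain ⟨c, hc, hc4, hdens⟩ := dens
  obtain ⟨δ, hδ, hδ2, C, hC, x0, hGU⟩ := GUS
  set κ : ℝ := -Real.log c with hκ
  have hκ0 : 0 ≤ κ := by
    have : Real.log c ≤ 0 := Real.log_nonpos hc.le (by linarith)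
    linarith
  set K1 : ℝ := 16 + 8 * κ with hK1
  have hK10 : 16 ≤ K1 := by linarith
  set C5 : ℝ := Real.log 4 + Real.log K1 + κ + 20 with hC5
  have hlog4 : 0 < Real.log 4 := Real.log_pos (by norm_num)
  have hlogK1 : 0 < Real.log K1 := Real.log_pos (by linarith)
  have hC50 : 20 ≤ C5 := by linarith
  set C6 : ℝ := Real.log C5 + 2 with hC6
  have hlogC5 : 0 < Real.log C5 := Real.log_pos (by linarith)
  have hC60 : 2 ≤ C6 := by linarith
  refine ⟨δ, 1 / (C * C6), 64 * K1, hδ, hδ2, by positivity, by positivity, ?_⟩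
  have tN : Tendsto (fun N : ℕ => (N : ℝ)) atTop atTop := tendsto_natCast_atTop_atTop
  have tL : Tendsto (fun N : ℕ => Real.log (N : ℝ)) atTop atTop := Real.tendsto_log_atTop.comp tN
  have tLL : Tendsto (fun L : ℝ => Real.log (Real.log L)) atTop atTop :=
    Real.tendsto_log_atTop.comp Real.tendsto_log_atTop
  have hev : ∀ᶠ L : ℝ in atTop, 4 * Real.log L ≤ L / 64 ∧ 100 ≤ L ∧
      Real.exp 1 ≤ Real.log (Real.log L) := by
    have h1 := Real.isLittleO_log_id_atTop.bound (show (0 : ℝ) < 1 / 256 by norm_num)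
    filter_upwards [h1, eventually_ge_atTop 100, tLL.eventually_ge_atTop (Real.exp 1)]
      with L h1 h3 h4
    refine ⟨?_, h3, h4⟩
    rw [Real.norm_of_nonneg (Real.log_nonneg (by linarith))] at h1
    simp only [id] at h1
    rw [Real.norm_of_nonneg (by linarith)] at h1
    linarith
  filter_upwards [tL.eventually hev, eventually_ge_atTop x0, eventually_ge_atTop 2] with x h1 h2 h2'
  obtain ⟨e1, e2, e3⟩ := h1
  intro y hxy hyx a ha
  set L := Real.log (x : ℝ) with hL
  have hx0 : (0 : ℝ) < x := by exact_mod_cast (by omega : 0 < x)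
  have hL0 : 0 < L := by linarith
  have hyhalf : Real.exp (L / 2) ≤ y := by
    refine le_trans ?_ hxy
    rw [Real.rpow_def_of_pos hx0, ← hL]
    apply Real.exp_le_exp.2
    nlinarith
  have hy0 : (0 : ℝ) < y := lt_of_lt_of_le (Real.exp_pos _) hyhalf
  have ha0 : (0 : ℝ) ≤ a := Nat.cast_nonneg _
  set lam := Real.log ((a : ℝ) + 2) with hlam
  have hlam1 : (1 / 2 : ℝ) ≤ lam :=
    log_two_ge.trans (Real.log_le_log (by norm_num) (by linarith))
  set s : ℝ := ((a : ℝ) + 2) * lam with hs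
  have hs1 : 1 ≤ s := by nlinarith
  have hlogL : 0 < Real.log L := Real.log_pos (by linarith)
  set mu := Real.log (Real.log L) with hmu
  have hmu1 : 1 ≤ mu := by
    have := Real.add_one_le_exp (1 : ℝ)
    linarith
  have hlogL1 : 1 ≤ Real.log L := by
    by_contra hcon
    push Not at hcon
    have : mu ≤ 0 := Real.log_nonpos hlogL.le hcon.le
    linarith
  have hlmu : 1 ≤ Real.log mu := by
    rw [Real.le_log_iff_exp_le (by linarith)]
    exact e3
  -- the parameter `v`
  set v : ℝ := max (4 * Real.log L) (K1 * s) with hv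
  have hv1 : 4 * Real.log L ≤ v := le_max_left _ _
  have hv2 : K1 * s ≤ v := le_max_right _ _
  have hv16 : 16 ≤ v := by nlinarith
  have hvL : v ≤ L / 64 := by
    apply max_le e1
    linarith
  have hpar := par (a := a) hκ0 (by linarith : (1 : ℝ) ≤ v) hv2
  set Y : ℕ := ⌊Real.exp v⌋₊ with hY
  have hYle : (Y : ℝ) ≤ Real.exp v := Nat.floor_le (Real.exp_pos _).le
  have hexpv : 2 ≤ Real.exp v := by
    have := Real.add_one_le_exp v
    linarith
  have hYge : Real.exp v / 2 ≤ Y := by
    have := Nat.lt_floor_add_one (Real.exp v)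
    rw [← hY] at this
    linarith
  have hY2' : (2 : ℝ) ≤ Y := by
    have h3 : 4 ≤ Real.exp v := by
      have := Real.add_one_le_exp v
      linarith
    linarith
  have hY2 : 2 ≤ Y := by exact_mod_cast hY2'
  have hY0 : (0 : ℝ) < Y := by linarith
  have hlogY : Real.log Y ≤ v := by
    have := Real.log_le_log hY0 hYle
    rwa [Real.log_exp] at this
  have hlogY0 : 0 ≤ Real.log Y := Real.log_nonneg (by linarith)
  have hY116 : 2 * (Y : ℝ) ≤ (y : ℝ) ^ (1 / 16 : ℝ) := by
    have h3 : Real.exp (L / 32) ≤ (y : ℝ) ^ (1 / 16 : ℝ) := by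
      have h4 := Real.rpow_le_rpow (Real.exp_pos _).le hyhalf (show (0 : ℝ) ≤ 1 / 16 by norm_num)
      refine le_trans (le_of_eq ?_) h4
      rw [← Real.exp_mul]
      congr 1
      ring
    refine le_trans ?_ h3
    have h4 : (2 : ℝ) ≤ Real.exp (L / 64) := by
      have := Real.add_one_le_exp (L / 64)
      linarith
    calc 2 * (Y : ℝ) ≤ Real.exp (L / 64) * Real.exp v := mul_le_mul h4 hYle (by positivity) (by positivity)
      _ = Real.exp (L / 64 + v) := (Real.exp_add _ _).symm
      _ ≤ Real.exp (L / 32) := Real.exp_le_exp.2 (by linarith)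
  obtain ⟨S0, hS01, hS02, hS03⟩ := hdens a Y hY2
  set S := S0.filter (fun p => 3 ≤ p) with hS
  have hScard : (S0.card : ℝ) + 1 ≤ S.card + 2 := by
    have h3 : S0 ⊆ insert 2 S := by
      intro p hp
      rw [mem_insert, hS, mem_filter]
      have := (PI_prime (hS02 p hp)).two_le
      rcases Nat.lt_or_ge p 3 with h4 | h4
      · left; omega
      · right; exact ⟨hp, h4⟩
    have h4 : S0.card ≤ S.card + 1 := (card_le_card h3).trans (card_insert_le _ _)
    have h5 : (S0.card : ℝ) ≤ S.card + 1 := by exact_mod_cast h4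
    linarith
  have hv0 : 0 < v := by linarith
  -- the main lower bound
  have hw : Real.exp (((a : ℝ) + 1) * (Real.log v + κ)) * c ^ (a + 1) = v ^ (a + 1) := by
    have h3 : Real.exp (((a : ℝ) + 1) * (Real.log v + κ)) = (v * c⁻¹) ^ (a + 1) := by
      have h4 : v * c⁻¹ = Real.exp (Real.log v + κ) := by
        rw [Real.exp_add, Real.exp_log hv0, hκ, Real.exp_neg, Real.exp_log hc]
      rw [h4, ← Real.exp_nat_mul]
      congr 1
      push_cast
      ring
    rw [h3, ← mul_pow, mul_assoc, inv_mul_cancel₀ hc.ne', mul_one]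
  set W : ℝ := Real.exp (((a : ℝ) + 1) * (Real.log v + κ)) with hW
  have hW0 : 0 < W := Real.exp_pos _
  have hSc0 : (0 : ℝ) ≤ S.card := Nat.cast_nonneg _
  have hYW : (Y : ℝ) ≤ (S.card + 2) * W := by
    have h3 : c ^ (a + 1) * Y ≤ ((S.card : ℝ) + 2) * v ^ (a + 1) := by
      refine hS03.trans ?_
      apply mul_le_mul hScard _ (pow_nonneg hlogY0 _) (by linarith)
      exact pow_le_pow_left₀ hlogY0 hlogY _
    rw [← hw] at h3
    have h4 : c ^ (a + 1) * Y ≤ c ^ (a + 1) * (((S.card : ℝ) + 2) * W) := by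
      refine h3.trans (le_of_eq ?_)
      ring
    exact le_of_mul_le_mul_left h4 (by positivity)
  have hWle : W ≤ Real.exp (v / 2) := Real.exp_le_exp.2 hpar
  have hSL : 2 * L + 2 ≤ S.card + 2 := by
    have h3 : Real.exp v / 2 ≤ (S.card + 2) * Real.exp (v / 2) :=
      hYge.trans (hYW.trans (mul_le_mul_of_nonneg_left hWle (by linarith)))
    have h4 : Real.exp v = Real.exp (v / 2) * Real.exp (v / 2) := by
      rw [← Real.exp_add]
      congr 1
      ring
    have h5 : Real.exp (v / 2) / 2 ≤ S.card + 2 := by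
      have h6 : (Real.exp (v / 2) / 2) * Real.exp (v / 2) ≤ (S.card + 2) * Real.exp (v / 2) := by
        calc (Real.exp (v / 2) / 2) * Real.exp (v / 2) = Real.exp v / 2 := by rw [h4]; ring
          _ ≤ _ := h3
      exact le_of_mul_le_mul_right h6 (Real.exp_pos _)
    refine le_trans ?_ h5
    have h6 : L ^ 2 ≤ Real.exp (v / 2) := by
      calc L ^ 2 = Real.exp (2 * Real.log L) := by
            rw [show (2 : ℝ) * Real.log L = ((2 : ℕ) : ℝ) * Real.log L by norm_num,
              Real.exp_nat_mul, Real.exp_log hL0]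
        _ ≤ _ := Real.exp_le_exp.2 (by linarith)
    nlinarith
  have hSL' : L ≤ S.card := by linarith
  have hS2 : (2 : ℝ) ≤ S.card := by linarith
  set k : ℕ := ⌈((a : ℝ) + 1) * (Real.log v + κ)⌉₊ + 4 with hk
  have hlogv : 0 ≤ Real.log v := Real.log_nonneg (by linarith)
  have hkge : ((a : ℝ) + 1) * (Real.log v + κ) + 2 ≤ k := by
    have := Nat.le_ceil (((a : ℝ) + 1) * (Real.log v + κ))
    rw [hk]
    push_cast
    linarith
  have hkle : (k : ℝ) ≤ ((a : ℝ) + 1) * (Real.log v + κ) + 5 := by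
    have := Nat.ceil_lt_add_one (show 0 ≤ ((a : ℝ) + 1) * (Real.log v + κ) by positivity)
    rw [hk]
    push_cast
    linarith
  have hEk : 2 * (Y : ℝ) ≤ Real.exp 1 ^ k * S.card := by
    have h3 : (4 : ℝ) ≤ Real.exp 2 := by
      have := Real.add_one_le_exp (1 : ℝ)
      have h4 : Real.exp 2 = Real.exp 1 * Real.exp 1 := by
        rw [← Real.exp_add]
        norm_num
      rw [h4]
      nlinarith
    have h5 : W * 4 ≤ Real.exp 1 ^ k := by
      rw [← Real.exp_nat_mul, mul_one]
      calc W * 4 ≤ W * Real.exp 2 := mul_le_mul_of_nonneg_left h3 hW0.le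
        _ = Real.exp (((a : ℝ) + 1) * (Real.log v + κ) + 2) := by rw [hW, ← Real.exp_add]
        _ ≤ _ := Real.exp_le_exp.2 hkge
    calc 2 * (Y : ℝ) ≤ 2 * ((S.card + 2) * W) := by linarith
      _ ≤ 2 * ((S.card + S.card) * W) := by
          apply mul_le_mul_of_nonneg_left _ (by norm_num)
          apply mul_le_mul_of_nonneg_right _ hW0.le
          linarith
      _ = (W * 4) * S.card := by ring
      _ ≤ _ := mul_le_mul_of_nonneg_right h5 (Nat.cast_nonneg _)
  have hSY : S ⊆ Icc 1 Y := (filter_subset _ _).trans hS01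
  have hodd : ∀ p ∈ S, 3 ≤ p ∧ p % 2 = 1 := by
    intro p hp
    rw [hS, mem_filter] at hp
    refine ⟨hp.2, ?_⟩
    rcases (PI_prime (hS02 p hp.1)).eq_two_or_odd with h | h
    · omega
    · exact h
  have hmain := hGU x y Y k S h2 hxy hyx hY116 hSY hodd hSL' (by omega) hEk
  -- the logarithm of `k`
  have hk0 : (0 : ℝ) < k := by
    have : 0 < k := by omega
    exact_mod_cast this
  have hlogk : Real.log k ≤ C6 * (lam + Real.log mu) :=
    kbound (a := a) hκ0 hK10 hlam hmu hlogL1 hmu1 hlmu hlam1 hs hs1 hv hkle hk0 hC5 hC6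
  have hM0 : 0 < lam + Real.log mu := by linarith
  set N : ℝ := lam + Real.log mu with hN
  have hRR : (y : ℝ) ≤ C * (C6 * N) * (RS S x y).card := by
    refine hmain.trans ?_
    apply mul_le_mul_of_nonneg_right _ (Nat.cast_nonneg _)
    exact mul_le_mul_of_nonneg_left hlogk (by linarith)
  refine ⟨RS S x y, ?_, ?_, ?_⟩
  · unfold RS
    exact filter_subset _ _
  · intro n hn
    unfold RS at hn
    obtain ⟨h3, p, hp, q, hq, hq2, hpq⟩ := mem_filter.1 hn
    have hpY := (mem_Icc.1 (hSY hp)).2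
    have hYx : (Y : ℝ) ≤ x := by
      rw [show (x : ℝ) = Real.exp L from (Real.exp_log hx0).symm]
      exact hYle.trans (Real.exp_le_exp.2 (by linarith))
    have hYx' : Y ≤ x := by exact_mod_cast hYx
    refine ⟨p, q, by omega, ?_, hq, hpq⟩
    rw [hS, mem_filter] at hp
    exact hS02 p hp.1
  · have hCN : 0 < C * (C6 * N) := by positivity
    calc 1 / (C * C6) * (y / N) = y / (C * (C6 * N)) := by
          field_simp
      _ ≤ (RS S x y).card := by
          rw [div_le_iff₀ hCN]
          linarith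

end Pool.Agent.T2H64.SI
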