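import Pool.Agent.T2H64.SI3

/-!
All types at once in short intervals.
-/

set_option autoImplicit false

open Finset Filter Topology

namespace Pool.Agent.T2H64.SI

open Pool.Agent.H197R2.PG (PI)
open Pool.Agent.TH665.GP (PI_prime)
open Pool.Agent.Y886.UT (f2 f2_ge log_of_f2 Rep PI_mono rep_of nlog_le log_two_ge dens)

/-- the integers `n` in `(x, x + y]` for which the types `(a, b)` with `P a b` and `f₂(a, b) ≤ n` are all represented -/
def Gd (P : ℕ → ℕ → Prop) (x y : ℕ) : Set ℕ :=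
  {n : ℕ | x < n ∧ n ≤ x + y ∧ ∀ a b : ℕ, P a b → f2 a b ≤ n → Rep a b (2 * n)}

lemma Gd_fin (P : ℕ → ℕ → Prop) (x y : ℕ) : (Gd P x y).Finite :=
  (Set.finite_Iic (x + y)).subset (fun _ hn => hn.2.1)

/-- **All types `(a, b)` with `a b = 0` at once** -/
theorem main2 : ∃ δ c : ℝ, 0 < δ ∧ δ ≤ 1 / 2 ∧ 0 < c ∧ ∀ᶠ x : ℕ in atTop, ∀ y : ℕ, (x : ℝ) ^ (1 - δ) ≤ y → y ≤ x →
    c * (y / Real.log (Real.log x)) ≤ Set.ncard (Gd (fun a b => a = 0 ∨ b = 0) x y) := by
  classical
  obtain ⟨δ, c, K, hδ, hδ2, hc, hK, h⟩ := main1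
  refine ⟨δ, c / 2, hδ, hδ2, by positivity, ?_⟩
  have tN : Tendsto (fun N : ℕ => (N : ℝ)) atTop atTop := tendsto_natCast_atTop_atTop
  have tL : Tendsto (fun N : ℕ => Real.log (N : ℝ)) atTop atTop := Real.tendsto_log_atTop.comp tN
  have tLL : Tendsto (fun L : ℝ => Real.log (Real.log L)) atTop atTop :=
    Real.tendsto_log_atTop.comp Real.tendsto_log_atTop
  have hev : ∀ᶠ L : ℝ in atTop, ∀ t : ℝ, 2 ≤ t → (t - 2) ^ 2 ≤ 3 * L → K * (t * Real.log t) ≤ L ∧ t ≤ L := by
    have h1 := Real.isLittleO_log_id_atTop.bound (show (0 : ℝ) < 1 / (12 * K) by positivity)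
    obtain ⟨t0, ht0⟩ := eventually_atTop.1 h1
    filter_upwards [eventually_ge_atTop (max (max t0 4) 1 ^ 2 * (K + 1) + 16)] with L hL
    intro t ht2 ht
    set m : ℝ := max (max t0 4) 1 with hm
    have hm4 : 4 ≤ m := (le_max_right _ _).trans (le_max_left _ _)
    have hmt0 : t0 ≤ m := (le_max_left _ _).trans (le_max_left _ _)
    have hm2 : 0 ≤ m ^ 2 := by positivity
    have hmK : m ^ 2 + 16 ≤ L := by nlinarith
    rcases le_or_gt t m with h2 | h2
    · have h3 : Real.log t ≤ t := by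
        have := Real.log_le_sub_one_of_pos (show 0 < t by linarith)
        linarith
      have h4 : t * Real.log t ≤ m * m := by
        have h5 : 0 ≤ Real.log t := Real.log_nonneg (by linarith)
        apply mul_le_mul h2 (h3.trans h2) h5 (by linarith)
      constructor
      · have : K * (t * Real.log t) ≤ K * (m * m) := mul_le_mul_of_nonneg_left h4 hK.le
        nlinarith
      · nlinarith
    · have h3 := ht0 t (hmt0.trans h2.le)
      rw [Real.norm_of_nonneg (Real.log_nonneg (by linarith))] at h3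
      simp only [id] at h3
      rw [Real.norm_of_nonneg (by linarith)] at h3
      have h4 : t ^ 2 / 12 ≤ (t - 2) ^ 2 / 3 := by nlinarith
      have h5 : K * (t * Real.log t) ≤ t ^ 2 / 12 := by
        calc K * (t * Real.log t) ≤ K * (t * (1 / (12 * K) * t)) := by
              apply mul_le_mul_of_nonneg_left _ hK.le
              exact mul_le_mul_of_nonneg_left h3 (by linarith)
          _ = t ^ 2 / 12 := by
              field_simp
      constructor
      · linarith
      · nlinarith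
  filter_upwards [h, tL.eventually hev, tL.eventually_ge_atTop 100, tL.eventually (tLL.eventually_ge_atTop (Real.exp 1)),
    eventually_ge_atTop 2] with x h1 h2 h3 h4 h5
  intro y hxy hyx
  set L := Real.log (x : ℝ) with hL
  have hL0 : 0 < L := by linarith
  have hx0 : (0 : ℝ) < x := by exact_mod_cast (by omega : 0 < x)
  have hy0 : (0 : ℝ) < y := lt_of_lt_of_le (Real.rpow_pos_of_pos hx0 _) hxy
  set A : ℕ := Nat.sqrt (Nat.log 2 (2 * x)) with hA
  have hlog2x : Real.log ((2 * x : ℕ) : ℝ) = Real.log 2 + L := by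
    push_cast
    rw [Real.log_mul (by norm_num) hx0.ne']
  have hA2 : ((A : ℝ)) ^ 2 ≤ 3 * L := by
    have h6 : A * A ≤ Nat.log 2 (2 * x) := Nat.sqrt_le _
    have h7 : ((A : ℝ)) * A ≤ Nat.log 2 (2 * x) := by exact_mod_cast h6
    have h8 := nlog_le (show 1 ≤ 2 * x by omega)
    rw [hlog2x] at h8
    have h9 := log_two_ge
    have h11 := Real.log_two_lt_d9
    have h10 : (0 : ℝ) ≤ Nat.log 2 (2 * x) := Nat.cast_nonneg _
    nlinarith
  have hA0 : (0 : ℝ) ≤ A := Nat.cast_nonneg _
  obtain ⟨g1, g2⟩ := h2 ((A : ℝ) + 2) (by linarith) (by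
    have : (A : ℝ) + 2 - 2 = A := by ring
    rw [this]
    exact hA2)
  obtain ⟨T, hT1, hT2, hT3⟩ := h1 y hxy hyx A g1
  have hsub : (T : Set ℕ) ⊆ Gd (fun a b => a = 0 ∨ b = 0) x y := by
    intro n hn
    rw [mem_coe] at hn
    have hnx := mem_Ioc.1 (hT1 hn)
    have hn2 : n ≤ 2 * x := by omega
    refine ⟨hnx.1, hnx.2, ?_⟩
    obtain ⟨p, q, hpq, hp, hq, hsum⟩ := hT2 n hn
    have hq0 : PI 0 q := by
      intro j hj
      have : j = 0 := by omega
      subst this
      exact hq
    intro a b hab hf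
    obtain ⟨k1, k2, -⟩ := f2_ge a b
    have haA : a ≤ A := by
      rw [hA, Nat.le_sqrt]
      have := log_of_f2 hn2 hf k1
      rwa [pow_two] at this
    have hbA : b ≤ A := by
      rw [hA, Nat.le_sqrt]
      have := log_of_f2 hn2 hf k2
      rwa [pow_two] at this
    rcases hab with h0 | h0
    · subst h0
      exact rep_of hq0 (PI_mono hbA hp) (by omega) (by omega)
    · subst h0
      exact rep_of (PI_mono haA hp) hq0 hsum (by omega)
  have h6 := Set.ncard_le_ncard hsub (Gd_fin _ _ _)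
  rw [Set.ncard_coe_finset] at h6
  have h7 : (T.card : ℝ) ≤ Set.ncard (Gd (fun a b => a = 0 ∨ b = 0) x y) := by
    exact_mod_cast h6
  refine le_trans ?_ (hT3.trans h7)
  -- the logarithms
  have hlogL1 : 1 ≤ Real.log L := by
    rw [Real.le_log_iff_exp_le hL0]
    have := Real.exp_one_lt_d9
    linarith
  have hmu1 : 1 ≤ Real.log (Real.log L) := by
    have := Real.add_one_le_exp (1 : ℝ)
    linarith
  have hlmu : 1 ≤ Real.log (Real.log (Real.log L)) := by
    rw [Real.le_log_iff_exp_le (by linarith)]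
    exact h4
  have k1 : Real.log ((A : ℝ) + 2) ≤ Real.log L := Real.log_le_log (by linarith) g2
  have k2 : Real.log (Real.log (Real.log L)) ≤ Real.log L := by
    have e1 := Real.log_le_sub_one_of_pos (show 0 < Real.log (Real.log L) by linarith)
    have e2 := Real.log_le_sub_one_of_pos (show 0 < Real.log L by linarith)
    linarith
  have k3 : 0 < Real.log ((A : ℝ) + 2) := Real.log_pos (by linarith)
  have k4 : (y : ℝ) / (2 * Real.log L) ≤
      y / (Real.log ((A : ℝ) + 2) + Real.log (Real.log (Real.log L))) :=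
    div_le_div_of_nonneg_left hy0.le (by linarith) (by linarith)
  calc c / 2 * (y / Real.log L) = c * (y / (2 * Real.log L)) := by
        field_simp
    _ ≤ _ := mul_le_mul_of_nonneg_left k4 hc.le

lemma abs_le_of_mul_self {a b : ℝ} (hb : 0 ≤ b) (h : a * a ≤ b * b) : a ≤ b := by
  by_contra hcon
  push Not at hcon
  have : b * b < a * a := mul_self_lt_mul_self hb hcon
  linarith

/-- the numbers which are large enough -/
lemma ev_t (κ δ M : ℝ) (hδ : 0 < δ) : ∀ᶠ t : ℝ in atTop, 100 ≤ t ∧ 20 * κ + 20 ≤ 2 * Real.log t ∧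
    16 * (2 * Real.log t + κ) * (2 * t + 1) ≤ t ^ 2 ∧ (t + 2) * (2 * Real.log t + κ) + M ≤ δ * t ^ 2 := by
  set ρ : ℝ := min (1 / 400) (δ / 16) with hρ
  have hρ0 : 0 < ρ := lt_min (by norm_num) (by positivity)
  have hρ1 : ρ ≤ 1 / 400 := min_le_left _ _
  have hρ2 : ρ ≤ δ / 16 := min_le_right _ _
  have h1 := Real.isLittleO_log_id_atTop.bound hρ0
  filter_upwards [eventually_ge_atTop 100, Real.tendsto_log_atTop.eventually_ge_atTop (|20 * κ| + 20), h1,
    eventually_ge_atTop (2 * |M| / δ + 1)] with t h1 h2 h3 h4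
  have hκ : 20 * κ ≤ |20 * κ| := le_abs_self _
  have hκ0 : 0 ≤ |20 * κ| := abs_nonneg _
  have hl : 0 ≤ Real.log t := by linarith
  rw [Real.norm_of_nonneg hl] at h3
  simp only [id] at h3
  rw [Real.norm_of_nonneg (by linarith)] at h3
  have hκl : 2 * Real.log t + κ ≤ 3 * Real.log t := by linarith
  have hlρ : 3 * Real.log t ≤ 3 * (ρ * t) := by linarith
  refine ⟨h1, by linarith, ?_, ?_⟩
  · have h5 : 2 * t + 1 ≤ 3 * t := by linarith
    have h6 : 16 * (2 * Real.log t + κ) ≤ 16 * (3 * (1 / 400 * t)) := by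
      have : ρ * t ≤ 1 / 400 * t := mul_le_mul_of_nonneg_right hρ1 (by linarith)
      linarith
    have h7 : 0 ≤ 16 * (3 * (1 / 400 * t)) := by linarith
    calc 16 * (2 * Real.log t + κ) * (2 * t + 1) ≤ 16 * (3 * (1 / 400 * t)) * (3 * t) := by
          rcases le_or_gt 0 (2 * Real.log t + κ) with h8 | h8
          · exact mul_le_mul h6 h5 (by linarith) h7
          · have : 16 * (2 * Real.log t + κ) * (2 * t + 1) ≤ 0 := mul_nonpos_of_nonpos_of_nonneg (by linarith) (by linarith)
            have : 0 ≤ 16 * (3 * (1 / 400 * t)) * (3 * t) := by positivity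
            linarith
      _ ≤ t ^ 2 := by nlinarith
  · have h5 : (t + 2) * (2 * Real.log t + κ) ≤ (2 * t) * (3 * (δ / 16 * t)) := by
      have h6 : 2 * Real.log t + κ ≤ 3 * (δ / 16 * t) := by
        have : ρ * t ≤ δ / 16 * t := mul_le_mul_of_nonneg_right hρ2 (by linarith)
        linarith
      have h7 : 0 ≤ 3 * (δ / 16 * t) := by positivity
      calc (t + 2) * (2 * Real.log t + κ) ≤ (t + 2) * (3 * (δ / 16 * t)) := mul_le_mul_of_nonneg_left h6 (by linarith)
        _ ≤ _ := mul_le_mul_of_nonneg_right (by linarith) h7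
    have h8 : M ≤ δ / 2 * t := by
      have h9 : 2 * |M| / δ ≤ t := by linarith
      rw [div_le_iff₀ hδ] at h9
      have := le_abs_self M
      nlinarith
    have h10 : δ / 2 * t ≤ δ / 2 * t ^ 2 := by
      apply mul_le_mul_of_nonneg_left _ (by positivity)
      nlinarith
    nlinarith

/-- the exponential form of the powers of the density -/
lemma pow_exp {η l κ : ℝ} (hη : 0 < η) (hκ : κ = Real.log 2 - Real.log η) (n : ℕ) :
    (2 * Real.exp l / η) ^ n = Real.exp ((n : ℝ) * (l + κ)) := by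
  have h : 2 * Real.exp l / η = Real.exp (l + κ) := by
    rw [hκ, Real.exp_add, Real.exp_sub, Real.exp_log (by norm_num), Real.exp_log hη]
    ring
  rw [h, ← Real.exp_nat_mul]

/-- **All types at once** -/
theorem main3 : ∃ δ : ℝ, 0 < δ ∧ δ ≤ 1 / 2 ∧ ∀ᶠ x : ℕ in atTop, ∀ y : ℕ, (x : ℝ) ^ (1 - δ) ≤ y → y ≤ x →
    (y : ℝ) * Real.exp (-(√(Real.log x) * Real.log (Real.log x))) ≤ Set.ncard (Gd (fun _ _ => True) x y) := by
  classical
  obtain ⟨δ₀, η, hδ₀, hδ₀1, hη, hη1, X₀, hX₀, hdS⟩ := densS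
  obtain ⟨c, hc, hc4, hdens⟩ := dens
  set κ : ℝ := Real.log 2 - Real.log (min η c) with hκdef
  have hm0 : 0 < min η c := lt_min hη hc
  have hm1 : min η c ≤ 1 := (min_le_left _ _).trans hη1
  have hκ0 : 0 ≤ κ := by
    have h1 : Real.log (min η c) ≤ 0 := Real.log_nonpos hm0.le hm1
    have := Real.log_two_gt_d9
    linarith
  set κ' : ℝ := Real.log 2 - Real.log η with hκ'def
  have hκ' : κ' ≤ κ := by
    have := Real.log_le_log hm0 (min_le_left η c)
    linarith
  have hκ'0 : 0 ≤ κ' := by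
    have h1 : Real.log η ≤ 0 := Real.log_nonpos hη.le hη1
    have := Real.log_two_gt_d9
    linarith
  set κ'' : ℝ := Real.log 2 - Real.log c with hκ''def
  have hκ'' : κ'' ≤ κ := by
    have := Real.log_le_log hm0 (min_le_right η c)
    linarith
  set δ : ℝ := min (δ₀ / 2) (1 / 4) with hδdef
  have hδ0 : 0 < δ := lt_min (by positivity) (by norm_num)
  have hδa : δ ≤ δ₀ / 2 := min_le_left _ _
  have hδb : δ ≤ 1 / 4 := min_le_right _ _
  refine ⟨δ, hδ0, by linarith, ?_⟩
  have tN : Tendsto (fun N : ℕ => (N : ℝ)) atTop atTop := tendsto_natCast_atTop_atTop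
  have tL : Tendsto (fun N : ℕ => Real.log (N : ℝ)) atTop atTop := Real.tendsto_log_atTop.comp tN
  have tS : Tendsto (fun N : ℕ => √(Real.log (N : ℝ))) atTop atTop := Real.tendsto_sqrt_atTop.comp tL
  filter_upwards [tS.eventually (ev_t κ δ (Real.log (2 * X₀) + 2) hδ0), eventually_ge_atTop 16] with x h1 h5
  obtain ⟨e1, e2, e4, e5⟩ := h1
  intro y hxy hyx
  set L := Real.log (x : ℝ) with hL
  set t := √L with ht
  have hx0 : (0 : ℝ) < x := by exact_mod_cast (by omega : 0 < x)
  have hx1 : (1 : ℝ) ≤ x := by exact_mod_cast (by omega : 1 ≤ x)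
  have hL0 : 0 < L := Real.log_pos (by exact_mod_cast (by omega : 1 < x))
  have ht2 : t * t = L := Real.mul_self_sqrt hL0.le
  have ht2' : t ^ 2 = L := by rw [pow_two, ht2]
  have ht0 : 0 < t := by linarith
  have hLt : Real.log L = 2 * Real.log t := by
    rw [← ht2, Real.log_mul ht0.ne' ht0.ne']
    ring
  rw [ht2'] at e4 e5
  set l := 2 * Real.log t with hl
  rw [hLt]
  have hl1 : 20 ≤ l := by linarith
  have hexpl : Real.exp l = L := by
    rw [hl, two_mul, Real.exp_add, Real.exp_log ht0, ht2]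
  have hxL : (x : ℝ) = Real.exp L := (Real.exp_log hx0).symm
  have hnl := nlog_le (show 1 ≤ 2 * x by omega)
  have hlog2x : Real.log ((2 * x : ℕ) : ℝ) = Real.log 2 + L := by
    push_cast
    rw [Real.log_mul (by norm_num) hx0.ne']
  rw [hlog2x] at hnl
  have hlog2 : (0.69 : ℝ) ≤ Real.log 2 := by
    have := Real.log_two_gt_d9
    linarith
  have hlog2' : Real.log 2 ≤ 0.7 := by
    have := Real.log_two_lt_d9
    linarith
  have hNL0 : (0 : ℝ) ≤ Nat.log 2 (2 * x) := Nat.cast_nonneg _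
  have hL100 : 10000 ≤ L := by nlinarith
  -- the two orders
  set A : ℕ := Nat.sqrt (Nat.log 2 (2 * x)) with hA
  set B : ℕ := Nat.sqrt (Nat.log 2 (2 * x) / 2) with hB
  have hA0 : (0 : ℝ) ≤ A := Nat.cast_nonneg _
  have hB0 : (0 : ℝ) ≤ B := Nat.cast_nonneg _
  have hAt : (A : ℝ) ≤ 2 * t := by
    have h6 : A * A ≤ Nat.log 2 (2 * x) := Nat.sqrt_le _
    have h7 : ((A : ℝ)) * A ≤ Nat.log 2 (2 * x) := by exact_mod_cast h6
    have h8 : (A : ℝ) * A ≤ (2 * t) * (2 * t) := by nlinarith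
    exact abs_le_of_mul_self (by linarith) h8
  have hBt : (B : ℝ) ≤ 0.87 * t := by
    have h6 : B * B ≤ Nat.log 2 (2 * x) / 2 := Nat.sqrt_le _
    have h7 : 2 * (B * B) ≤ Nat.log 2 (2 * x) := by omega
    have h7' : 2 * ((B : ℝ) * B) ≤ Nat.log 2 (2 * x) := by exact_mod_cast h7
    have h8 : (B : ℝ) * B ≤ (0.87 * t) * (0.87 * t) := by nlinarith
    exact abs_le_of_mul_self (by linarith) h8
  -- the small prime
  have hyhalf : Real.exp (3 * L / 4) ≤ y := by
    refine le_trans ?_ hxy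
    rw [Real.rpow_def_of_pos hx0, ← hL]
    apply Real.exp_le_exp.2
    nlinarith
  set Y : ℕ := Nat.sqrt x with hY
  have hY4 : 4 ≤ Y := by
    rw [hY, Nat.le_sqrt]
    omega
  have hYx : Y * Y ≤ x := Nat.sqrt_le _
  have hYr4 : (4 : ℝ) ≤ Y := by exact_mod_cast hY4
  have hYle : (Y : ℝ) ≤ Real.exp (L / 2) := by
    have h6 : (Y : ℝ) * Y ≤ Real.exp (L / 2) * Real.exp (L / 2) := by
      rw [← Real.exp_add, show L / 2 + L / 2 = L by ring, ← hxL]
      exact_mod_cast hYx
    exact abs_le_of_mul_self (Real.exp_pos _).le h6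
  have hYge : Real.exp (L / 2) ≤ 2 * Y := by
    have h6 : x < (Y + 1) * (Y + 1) := Nat.lt_succ_sqrt x
    have h7 : Real.exp (L / 2) * Real.exp (L / 2) ≤ (2 * Y) * (2 * (Y : ℝ)) := by
      rw [← Real.exp_add, show L / 2 + L / 2 = L by ring, ← hxL]
      have h8 : (x : ℝ) < ((Y : ℝ) + 1) * (Y + 1) := by exact_mod_cast h6
      nlinarith
    exact abs_le_of_mul_self (by positivity) h7
  have hYy : Y ≤ y := by
    have h6 : (Y : ℝ) ≤ y := hYle.trans ((Real.exp_le_exp.2 (by linarith)).trans hyhalf)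
    exact_mod_cast h6
  have hYx' : Y ≤ x := by omega
  have hlogY : Real.log Y ≤ Real.exp l := by
    rw [hexpl]
    have h6 := Real.log_le_log (by linarith) hYle
    rw [Real.log_exp] at h6
    linarith
  have hlogY0 : 0 ≤ Real.log Y := Real.log_natCast_nonneg Y
  have hlk : 0 ≤ l + κ := by linarith
  obtain ⟨S0, hS01, hS02, hS03⟩ := hdens A Y (by omega)
  have hAl : ((A : ℝ) + 1) * (l + κ) ≤ L / 16 := by
    have h6 : ((A : ℝ) + 1) * (l + κ) ≤ (2 * t + 1) * (l + κ) :=
      mul_le_mul_of_nonneg_right (by linarith) hlk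
    have h7 : 16 * (l + κ) * (2 * t + 1) ≤ L := e4
    nlinarith
  have hbig : 16 ≤ Real.exp (L / 8) := by
    have h6 : L / 8 + 1 ≤ Real.exp (L / 8) := Real.add_one_le_exp _
    linarith
  have hS04 : (2 : ℝ) < S0.card := by
    have hW : Real.log Y ^ (A + 1) ≤ c ^ (A + 1) * Real.exp (L / 16) := by
      have h6 : Real.log Y ^ (A + 1) ≤ (2 * Real.exp l) ^ (A + 1) := by
        apply pow_le_pow_left₀ hlogY0
        have := Real.exp_pos l
        linarith
      have h7 := pow_exp (l := l) hc hκ''def (A + 1)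
      have h8 : (2 * Real.exp l) ^ (A + 1) = c ^ (A + 1) * (2 * Real.exp l / c) ^ (A + 1) := by
        rw [← mul_pow]
        congr 1
        field_simp
      rw [h8, h7] at h6
      refine h6.trans (mul_le_mul_of_nonneg_left (Real.exp_le_exp.2 ?_) (by positivity))
      refine le_trans ?_ hAl
      push_cast
      apply mul_le_mul_of_nonneg_left _ (by linarith)
      linarith
    have h9 : c ^ (A + 1) * (Y : ℝ) ≤ c ^ (A + 1) * (((S0.card : ℝ) + 1) * Real.exp (L / 16)) := by
      calc c ^ (A + 1) * (Y : ℝ) ≤ ((S0.card : ℝ) + 1) * Real.log Y ^ (A + 1) := hS03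
        _ ≤ ((S0.card : ℝ) + 1) * (c ^ (A + 1) * Real.exp (L / 16)) :=
          mul_le_mul_of_nonneg_left hW (add_nonneg (Nat.cast_nonneg _) zero_le_one)
        _ = _ := by ring
    have h10 : (Y : ℝ) ≤ ((S0.card : ℝ) + 1) * Real.exp (L / 16) := le_of_mul_le_mul_left h9 (by positivity)
    by_contra hcon
    push Not at hcon
    have h11 : (Y : ℝ) ≤ 3 * Real.exp (L / 16) :=
      h10.trans (mul_le_mul_of_nonneg_right (by linarith) (Real.exp_pos _).le)
    have h12 : Real.exp (L / 2) ≤ 6 * Real.exp (L / 16) := by linarith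
    have h13 : Real.exp (L / 2) = Real.exp (L / 8) * Real.exp (3 * L / 8) := by
      rw [← Real.exp_add]
      congr 1
      ring
    have h14 : Real.exp (L / 16) ≤ Real.exp (3 * L / 8) := Real.exp_le_exp.2 (by linarith)
    have h15 := Real.exp_pos (3 * L / 8)
    nlinarith
  have hp0 : ∃ p ∈ S0, p ≠ 2 := by
    by_contra hcon
    push Not at hcon
    have h6 : S0 ⊆ {2} := fun p hp => mem_singleton.2 (hcon p hp)
    have h7 := card_le_card h6
    rw [card_singleton] at h7
    have h8 : (S0.card : ℝ) ≤ 1 := by exact_mod_cast h7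
    linarith
  obtain ⟨p, hpS, hp2⟩ := hp0
  have hpp := PI_prime (hS02 p hpS)
  have hpY := (mem_Icc.1 (hS01 hpS)).2
  have hpodd : p % 2 = 1 := by
    rcases hpp.eq_two_or_odd with h | h
    · exact absurd h hp2
    · exact h
  -- the large primes
  have hΛ1 : 1 ≤ 2 * Real.exp l := by rw [hexpl]; linarith
  have hlogΛ : Real.log ((2 * x : ℕ) : ℝ) ≤ 2 * Real.exp l := by
    rw [hlog2x, hexpl]
    linarith
  have hB1 : ((B : ℝ) + 1) * (l + κ) + 1 ≤ t * l := by
    have h8 : ((B : ℝ) + 1) * (l + κ) ≤ (0.87 * t + 1) * (l + κ) :=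
      mul_le_mul_of_nonneg_right (by linarith) hlk
    have h9 : κ ≤ l / 20 := by linarith
    have h10 : (0.87 * t + 1) * (l + κ) ≤ (0.87 * t + 1) * (l + l / 20) :=
      mul_le_mul_of_nonneg_left (by linarith) (by linarith)
    have h11 : (0.87 * t + 1) * (l + l / 20) = 0.9135 * (t * l) + 1.05 * l := by ring
    have h12 : 100 * l ≤ t * l := mul_le_mul_of_nonneg_right e1 (by linarith)
    linarith
  have hpowB : (2 * Real.exp l / η) ^ B ≤ Real.exp (δ * L - (Real.log (2 * X₀) + 2)) := by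
    rw [pow_exp (l := l) hη hκ'def B]
    apply Real.exp_le_exp.2
    have h8 : (B : ℝ) * (l + κ') ≤ (t + 2) * (l + κ) := by
      apply mul_le_mul (by linarith) (by linarith) (by linarith) (by linarith)
    linarith
  have hX₀r : (2 : ℝ) ≤ X₀ := by exact_mod_cast hX₀
  have hexpX : Real.exp (δ * L - (Real.log (2 * X₀) + 2)) ≤ Real.exp (δ * L) / (2 * X₀) := by
    rw [Real.exp_sub, Real.exp_add, Real.exp_log (by linarith)]
    apply div_le_div_of_nonneg_left (Real.exp_pos _).le (by linarith)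
    have h8 : 1 ≤ Real.exp 2 := Real.one_le_exp (by norm_num)
    exact le_mul_of_one_le_right (by linarith) h8
  have hpowB2 := hpowB.trans hexpX
  have hyL : Real.exp ((1 - δ) * L) ≤ y := by
    refine le_trans (le_of_eq ?_) hxy
    rw [Real.rpow_def_of_pos hx0, ← hL, mul_comm]
  obtain ⟨S1, hS11, hS12, hS13⟩ := hdS B (2 * x) y (2 * Real.exp l) hΛ1 hlogΛ (by omega) (by
    calc (X₀ : ℝ) * (2 * Real.exp l / η) ^ B ≤ X₀ * (Real.exp (δ * L) / (2 * X₀)) :=
          mul_le_mul_of_nonneg_left hpowB2 (by linarith)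
      _ = Real.exp (δ * L) / 2 := by field_simp
      _ ≤ Real.exp ((1 - δ) * L) := by
          have h8 : Real.exp (δ * L) ≤ Real.exp ((1 - δ) * L) := by
            apply Real.exp_le_exp.2
            nlinarith
          have := Real.exp_pos (δ * L)
          linarith
      _ ≤ y := hyL) (by
    have h8 : ((2 * x : ℕ) : ℝ) ^ (1 - δ₀) ≤ 2 * Real.exp ((1 - 2 * δ) * L) := by
      push_cast
      rw [Real.mul_rpow (by norm_num) hx0.le]
      apply mul_le_mul
      · calc (2 : ℝ) ^ (1 - δ₀) ≤ 2 ^ (1 : ℝ) := Real.rpow_le_rpow_of_exponent_le (by norm_num) (by linarith)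
          _ = 2 := Real.rpow_one _
      · rw [Real.rpow_def_of_pos hx0, ← hL]
        apply Real.exp_le_exp.2
        nlinarith
      · positivity
      · norm_num
    calc ((2 * x : ℕ) : ℝ) ^ (1 - δ₀) * (2 * Real.exp l / η) ^ B ≤
          (2 * Real.exp ((1 - 2 * δ) * L)) * (Real.exp (δ * L) / (2 * X₀)) :=
          mul_le_mul h8 hpowB2 (by positivity) (by positivity)
      _ = Real.exp ((1 - δ) * L) / X₀ := by
          have : Real.exp ((1 - δ) * L) = Real.exp ((1 - 2 * δ) * L) * Real.exp (δ * L) := by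
            rw [← Real.exp_add]
            congr 1
            ring
          rw [this]
          field_simp
      _ ≤ Real.exp ((1 - δ) * L) := div_le_self (Real.exp_pos _).le (by linarith)
      _ ≤ y := hyL)
  have hqodd : ∀ q ∈ S1, q % 2 = 1 ∧ 2 * x < q ∧ q ≤ 2 * x + y ∧ PI B q := by
    intro q hq
    have h6 := PI_prime (hS12 q hq)
    have h7 := mem_Ioc.1 (hS11 hq)
    rcases h6.eq_two_or_odd with h | h
    · omega
    · exact ⟨h, h7.1, h7.2, hS12 q hq⟩
  set T := S1.image (fun q => (p + q) / 2) with hT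
  have hTc : T.card = S1.card := by
    apply card_image_of_injOn
    intro q hq q' hq' h
    rw [mem_coe] at hq hq'
    have h6 := hqodd q hq
    have h7 := hqodd q' hq'
    simp only at h
    omega
  have hsub : (T : Set ℕ) ⊆ Gd (fun _ _ => True) x y := by
    intro n hn
    rw [mem_coe, hT] at hn
    obtain ⟨q, hq, rfl⟩ := mem_image.1 hn
    obtain ⟨q1, q2, q3, q4⟩ := hqodd q hq
    have hn1 : x < (p + q) / 2 := by omega
    have hn2 : (p + q) / 2 ≤ x + y := by omega
    have hn3 : (p + q) / 2 ≤ 2 * x := by omega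
    refine ⟨hn1, hn2, fun a b _ hf => ?_⟩
    obtain ⟨k1, k2, k3⟩ := f2_ge a b
    have haA : a ≤ A := by
      rw [hA, Nat.le_sqrt]
      have := log_of_f2 hn3 hf k1
      rwa [pow_two] at this
    have hbA : b ≤ A := by
      rw [hA, Nat.le_sqrt]
      have := log_of_f2 hn3 hf k2
      rwa [pow_two] at this
    have hmin : min a b ≤ B := by
      rw [hB, Nat.le_sqrt]
      have h6 := log_of_f2 hn3 hf k3
      rw [pow_two] at h6
      omega
    rcases le_total a b with hab | hab
    · rw [min_eq_left hab] at hmin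
      exact rep_of (PI_mono hmin q4) (PI_mono hbA (hS02 p hpS)) (by omega) (by omega)
    · rw [min_eq_right hab] at hmin
      exact rep_of (PI_mono haA (hS02 p hpS)) (PI_mono hmin q4) (by omega) (by omega)
  have h6 := Set.ncard_le_ncard hsub (Gd_fin _ _ _)
  rw [Set.ncard_coe_finset, hTc] at h6
  have h7 : (S1.card : ℝ) ≤ Set.ncard (Gd (fun _ _ => True) x y) := by
    exact_mod_cast h6
  refine le_trans ?_ (hS13.trans h7)
  rw [mul_comm]
  apply mul_le_mul_of_nonneg_right _ (Nat.cast_nonneg _)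
  have h8 : (η / (2 * Real.exp l)) ^ (B + 1) = Real.exp (-(((B : ℝ) + 1) * (l + κ'))) := by
    rw [Real.exp_neg, ← show ((B + 1 : ℕ) : ℝ) = (B : ℝ) + 1 by push_cast; ring, ← pow_exp (l := l) hη hκ'def (B + 1),
      ← inv_pow, inv_div]
  rw [h8]
  apply Real.exp_le_exp.2
  have h9 : ((B : ℝ) + 1) * (l + κ') ≤ ((B : ℝ) + 1) * (l + κ) := mul_le_mul_of_nonneg_left (by linarith) (by linarith)
  linarith

end Pool.Agent.T2H64.SI
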